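import Pool.Agent.X261.TW.Main

/-!
The rank of a finitely generated group with two classes modulo two.
-/

set_option autoImplicit false

open Submodule

namespace Pool.Agent.X261.TW

section abs

variable {A : Type} [AddCommGroup A]

theorem finrank_le_one (h : ∀ S T : A, (¬ ∃ R, R + R = S) → (¬ ∃ R, R + R = T) →
    ∃ R, R + R = S + T) (hfin : Module.Finite ℤ A) : Module.finrank ℤ A ≤ 1 := by
  by_contra hlt
  have hr : Module.finrank ℤ (A ⧸ torsion ℤ A) = Module.finrank ℤ A := by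
    unfold Module.finrank
    rw [rank_quotient_eq_of_le_torsion le_rfl]
  set b := Module.finBasis ℤ (A ⧸ torsion ℤ A) with hb
  have h0 : 0 < Module.finrank ℤ (A ⧸ torsion ℤ A) := by omega
  have h1 : 1 < Module.finrank ℤ (A ⧸ torsion ℤ A) := by omega
  obtain ⟨x, hx⟩ := mkQ_surjective (torsion ℤ A) (b ⟨0, h0⟩)
  obtain ⟨y, hy⟩ := mkQ_surjective (torsion ℤ A) (b ⟨1, h1⟩)
  have key : ∀ (i : Fin (Module.finrank ℤ (A ⧸ torsion ℤ A))) (z : A),
      (∃ R, R + R = z) → Even (b.repr (mkQ (torsion ℤ A) z) i) := by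
    rintro i z ⟨R, rfl⟩
    rw [map_add, map_add, Finsupp.add_apply]
    exact ⟨_, rfl⟩
  have hx0 : b.repr (mkQ (torsion ℤ A) x) ⟨0, h0⟩ = 1 := by
    rw [hx, b.repr_self, Finsupp.single_eq_same]
  have hx1 : b.repr (mkQ (torsion ℤ A) x) ⟨1, h1⟩ = 0 := by
    rw [hx, b.repr_self, Finsupp.single_eq_of_ne (by simp)]
  have hy0 : b.repr (mkQ (torsion ℤ A) y) ⟨0, h0⟩ = 0 := by
    rw [hy, b.repr_self, Finsupp.single_eq_of_ne (by simp)]
  have hy1 : b.repr (mkQ (torsion ℤ A) y) ⟨1, h1⟩ = 1 := by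
    rw [hy, b.repr_self, Finsupp.single_eq_same]
  have e1 : ¬ Even (1 : ℤ) := by decide
  have h2 := h x y (fun hh => e1 (by
    have := key ⟨0, h0⟩ x hh
    rwa [hx0] at this)) (fun hh => e1 (by
    have := key ⟨1, h1⟩ y hh
    rwa [hy1] at this))
  have h3 := key ⟨0, h0⟩ _ h2
  rw [map_add, map_add, Finsupp.add_apply, hx0, hy0, add_zero] at h3
  exact e1 h3

theorem finrank_pos {q : A} (hq : ∀ n : ℤ, n • q = 0 → n = 0) (hfin : Module.Finite ℤ A) :
    0 < Module.finrank ℤ A := by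
  rcases Nat.eq_zero_or_pos (Module.finrank ℤ A) with h | h
  · obtain ⟨n, hn, hnq⟩ := (Module.finrank_eq_zero_iff.1 h) q
    exact absurd (hq n hnq) hn
  · exact h

theorem all_of {q : A} (h : ∀ S T : A, (¬ ∃ R, R + R = S) → (¬ ∃ R, R + R = T) →
    ∃ R, R + R = S + T) (hq : ∀ r : A, r + r ≠ q) (T : A) :
    ∃ R : A, T = R + R ∨ T = q + (R + R) := by
  by_cases hT : ∃ R, R + R = T
  · obtain ⟨R, hR⟩ := hT
    exact ⟨R, Or.inl hR.symm⟩
  · obtain ⟨R, hR⟩ := h T q hT (fun ⟨R, hR⟩ => hq R hR)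
    refine ⟨R - q, Or.inr ?_⟩
    have h4 : q + (R - q + (R - q)) = (R + R) - q := by abel
    rw [h4, hR]
    abel

end abs

end Pool.Agent.X261.TW
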