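import Pool.Agent.X261.TW.Ord

/-!
An example over the finite fields of characteristic five whose degree is prime to six.
-/

set_option autoImplicit false
set_option maxHeartbeats 2000000

open Polynomial

namespace Pool.Agent.X261.TW.Ex

/-- the coefficients -/
def cf9 : List ℤ := [2, 0, 3, 3, 4, 3, 3, 2, 0, 1]

/-- the reductions of the iterated fifth powers -/
def HH9 : List (List ℤ) :=
  [[0, 1],
  [0, 0, 0, 0, 0, 1],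
  [1, 1, 3, 3, 2, 4, 2, 4, 2],
  [0, 3, 3, 0, 3, 2, 0, 4, 4],
  [0, 2, 3, 3, 4, 3, 3, 0, 4],
  [1, 2, 4, 2, 1, 3, 1, 2, 1],
  [4, 2, 1, 4, 2, 1, 2, 4, 4],
  [4, 0, 4, 0, 3, 2, 3, 3, 4],
  [0, 4, 2, 3, 0, 4, 4, 3, 1],
  [0, 1]]

/-- the quotients -/
def QQ9 : List (List ℤ) :=
  [[],
  [2, 2, 3, 0, 0, 4, 2, 0, 1, 0, 0, 3, 1, 2, 3, 0, 1],
  [3, 1, 4, 4, 0, 1, 0, 3, 1, 2, 2, 1, 2, 3, 1, 0, 2, 3, 3, 1, 3, 3, 4, 0, 2, 0, 0, 2, 4, 1, 0,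
    2],
  [0, 4, 1, 0, 3, 3, 1, 1, 3, 3, 0, 2, 1, 0, 4, 4, 3, 2, 4, 0, 1, 0, 4, 2, 2, 0, 1, 4, 3, 2, 0,
    4],
  [2, 4, 0, 0, 2, 1, 0, 4, 0, 3, 4, 4, 0, 0, 2, 3, 0, 0, 1, 4, 1, 1, 0, 4, 0, 0, 2, 4, 3, 2, 0,
    4],
  [1, 4, 3, 3, 4, 2, 0, 4, 4, 1, 1, 1, 2, 1, 1, 0, 2, 4, 4, 3, 4, 4, 2, 0, 1, 0, 0, 1, 2, 3, 0,
    1],
  [0, 0, 3, 0, 4, 3, 4, 1, 0, 0, 3, 2, 0, 0, 1, 4, 3, 4, 3, 1, 1, 2, 4, 2, 2, 0, 1, 4, 3, 2, 0,
    4],
  [2, 3, 1, 1, 0, 1, 2, 2, 4, 1, 0, 1, 3, 3, 4, 0, 0, 0, 4, 4, 1, 0, 3, 0, 4, 0, 0, 4, 3, 2, 0,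
    4],
  [0, 2, 0, 2, 2, 0, 1, 0, 2, 0, 0, 1, 1, 1, 4, 4, 4, 2, 1, 2, 4, 0, 3, 2, 4, 0, 1, 1, 2, 3, 0,
    1]]

/-- a certificate -/
def uu9_3 : List ℤ := [1, 0, 1, 0, 2, 4, 1, 4, 4]

/-- a certificate -/
def ww9_3 : List ℤ := [3, 4, 4, 1, 4, 2, 3, 4]

/-- the coefficients -/
def cf18 : List ℤ := [2, 4, 1, 0, 0, 1, 2, 1, 2, 2, 3, 0, 3, 0, 0, 0, 1, 0, 1]

/-- the reductions of the iterated fifth powers -/
def HH18 : List (List ℤ) :=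
  [[0, 1],
  [0, 0, 0, 0, 0, 1],
  [0, 3, 1, 2, 1, 1, 3, 2, 4, 0, 3, 2, 3, 4, 1, 3, 3, 4],
  [2, 3, 0, 0, 3, 3, 4, 3, 4, 4, 3, 1, 0, 3, 1, 3, 1],
  [3, 2, 2, 0, 2, 2, 4, 1, 2, 1, 4, 4, 1, 0, 4, 0, 3],
  [2, 2, 2, 3, 2, 4, 4, 2, 3, 4, 2, 3, 3, 4, 4, 1],
  [2, 1, 3, 1, 4, 2, 4, 3, 3, 0, 0, 4, 3, 2, 3, 1, 3, 3],
  [4, 1, 0, 3, 3, 0, 2, 0, 3, 0, 1, 3, 0, 2, 4, 2, 3, 2],
  [4, 1, 4, 1, 0, 4, 2, 4, 2, 3, 0, 1, 4, 4, 1, 2, 4, 2],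
  [4, 0, 0, 0, 0, 2, 0, 2, 0, 4],
  [4, 3, 1, 2, 1, 1, 0, 0, 0, 0, 0, 4, 0, 1],
  [3, 2, 2, 3, 0, 0, 4, 1, 0, 0, 3, 1, 4, 3, 4, 3, 0, 1],
  [4, 3, 4, 4, 1, 1, 3, 1, 1, 0, 1, 1, 4, 0, 4, 4, 1],
  [3, 4, 3, 0, 3, 3, 2, 1, 4, 2, 1, 4, 1, 2, 1, 1],
  [3, 0, 4, 4, 2, 3, 4, 4, 3, 0, 3, 1, 0, 2, 1, 4, 4],
  [3, 1, 4, 2, 4, 0, 0, 3, 3, 4, 3, 3, 4, 1, 2, 0, 1, 2],
  [2, 2, 4, 1, 1, 0, 1, 3, 3, 1, 3, 2, 1, 3, 1, 0, 2, 3],
  [2, 1, 1, 4, 3, 3, 3, 0, 0, 2, 3, 1, 2, 4, 4, 1, 0, 3],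
  [0, 1]]

/-- the quotients -/
def QQ18 : List (List ℤ) :=
  [[],
  [0, 1, 0, 1, 0, 4, 0, 1],
  [4, 3, 2, 2, 1, 0, 2, 1, 4, 4, 1, 3, 4, 4, 4, 2, 0, 0, 3, 2, 2, 4, 3, 1, 3, 3, 1, 1, 1, 1, 3,
    0, 2, 2, 1, 1, 1, 4, 4, 3, 3, 3, 4, 2, 4, 4, 1, 2, 3, 2, 0, 1, 4, 2, 2, 2, 0, 4, 0, 1, 2, 4,
    3, 4, 0, 1, 0, 4],
  [2, 0, 3, 4, 2, 1, 3, 3, 2, 3, 3, 0, 2, 4, 0, 4, 0, 2, 1, 3, 4, 1, 4, 2, 1, 1, 1, 3, 2, 3, 4,
    0, 0, 1, 3, 3, 4, 3, 1, 2, 1, 1, 2, 3, 4, 1, 1, 4, 0, 2, 4, 1, 0, 1, 4, 2, 1, 3, 1, 0, 4, 0,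
    1],
  [3, 3, 4, 4, 4, 0, 4, 2, 2, 4, 1, 3, 1, 0, 4, 4, 3, 0, 1, 4, 4, 4, 4, 2, 1, 2, 2, 0, 2, 1, 3,
    0, 2, 0, 3, 1, 4, 4, 4, 0, 1, 3, 0, 3, 1, 2, 2, 2, 4, 0, 1, 4, 1, 4, 2, 0, 3, 0, 3, 0, 2, 0,
    3],
  [0, 2, 2, 2, 3, 3, 2, 0, 1, 4, 3, 0, 3, 2, 0, 2, 1, 2, 4, 4, 0, 2, 2, 4, 0, 3, 4, 4, 3, 0, 3,
    2, 2, 1, 2, 2, 1, 1, 2, 1, 1, 2, 3, 1, 1, 1, 2, 3, 2, 4, 1, 1, 4, 1, 0, 4, 0, 1],
  [4, 4, 0, 4, 3, 3, 3, 4, 1, 0, 4, 2, 2, 0, 1, 0, 2, 4, 1, 1, 3, 1, 2, 0, 2, 1, 1, 0, 3, 2, 1,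
    2, 3, 2, 1, 2, 3, 4, 4, 2, 2, 2, 1, 0, 2, 2, 0, 1, 2, 4, 4, 3, 2, 0, 2, 4, 2, 3, 2, 2, 2, 3,
    3, 3, 0, 2, 0, 3],
  [0, 2, 4, 3, 2, 3, 1, 3, 1, 2, 2, 0, 2, 0, 2, 0, 3, 3, 4, 4, 0, 0, 1, 4, 4, 3, 4, 4, 3, 0, 3,
    1, 2, 1, 4, 4, 3, 3, 3, 4, 1, 3, 3, 2, 1, 3, 2, 4, 4, 3, 4, 3, 4, 1, 2, 3, 4, 0, 4, 3, 2, 2,
    3, 2, 0, 3, 0, 2],
  [0, 0, 0, 0, 0, 2, 1, 1, 0, 0, 1, 3, 1, 3, 0, 1, 3, 0, 2, 2, 0, 2, 1, 3, 2, 4, 2, 2, 1, 2, 2,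
    2, 2, 0, 3, 2, 3, 0, 4, 2, 1, 3, 1, 2, 4, 0, 0, 0, 1, 3, 2, 1, 0, 4, 1, 3, 0, 0, 0, 3, 1, 2,
    4, 2, 0, 3, 0, 2],
  [0, 1, 0, 1, 0, 4, 4, 4, 4, 3, 1, 1, 1, 2, 0, 3, 2, 3, 2, 1, 0, 4, 0, 4, 0, 1, 0, 4],
  [3, 3, 4, 4, 0, 3, 0, 4, 4, 3, 1, 3, 1, 3, 0, 3, 3, 4, 3, 3, 4, 2, 4, 1, 0, 4, 4, 2, 4, 1, 4,
    0, 4, 4, 0, 1, 3, 3, 3, 4, 0, 1, 0, 1, 0, 4, 0, 1],
  [2, 2, 3, 1, 1, 2, 1, 2, 1, 0, 2, 3, 1, 1, 2, 1, 1, 0, 4, 0, 2, 3, 3, 4, 4, 2, 3, 3, 0, 4, 3,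
    4, 3, 3, 1, 4, 3, 2, 4, 0, 1, 1, 0, 1, 1, 1, 0, 1, 0, 2, 0, 4, 3, 3, 0, 2, 3, 2, 3, 4, 0, 1,
    0, 1, 0, 4, 0, 1],
  [3, 2, 3, 3, 1, 0, 2, 3, 0, 0, 2, 1, 0, 1, 3, 2, 3, 3, 1, 4, 4, 1, 2, 1, 2, 0, 1, 1, 2, 1, 4,
    3, 3, 0, 4, 4, 4, 4, 3, 0, 1, 3, 2, 4, 1, 4, 2, 0, 1, 1, 1, 2, 3, 2, 4, 1, 1, 4, 1, 0, 4, 0,
    1],
  [0, 0, 3, 2, 1, 0, 0, 4, 4, 1, 1, 4, 2, 3, 0, 1, 3, 2, 2, 0, 3, 3, 0, 3, 2, 0, 1, 2, 3, 4, 4,
    4, 2, 0, 4, 4, 0, 2, 4, 3, 3, 1, 4, 0, 4, 3, 4, 1, 4, 4, 4, 1, 1, 1, 0, 4, 0, 1],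
  [0, 2, 4, 0, 1, 3, 0, 3, 0, 2, 3, 1, 2, 0, 0, 1, 1, 1, 3, 0, 4, 0, 3, 3, 4, 0, 2, 0, 2, 1, 4,
    2, 4, 2, 2, 1, 2, 4, 3, 3, 2, 2, 4, 3, 4, 4, 2, 4, 3, 1, 4, 1, 2, 1, 1, 1, 4, 4, 4, 0, 1, 0,
    4],
  [3, 3, 3, 2, 4, 0, 3, 4, 3, 0, 1, 4, 1, 1, 1, 4, 1, 4, 0, 0, 4, 3, 1, 0, 4, 3, 0, 4, 3, 4, 4,
    2, 3, 2, 4, 2, 2, 3, 3, 0, 1, 0, 4, 1, 3, 1, 2, 2, 1, 0, 1, 0, 4, 3, 4, 0, 2, 3, 2, 3, 4, 2,
    1, 2, 0, 3, 0, 2],
  [0, 2, 3, 1, 0, 4, 2, 3, 1, 1, 3, 1, 2, 3, 0, 3, 3, 4, 4, 2, 1, 2, 0, 4, 2, 4, 1, 1, 1, 1, 4,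
    3, 2, 4, 0, 4, 2, 4, 2, 1, 1, 4, 1, 3, 4, 2, 4, 4, 2, 0, 1, 4, 1, 1, 3, 0, 1, 2, 1, 2, 3, 3,
    2, 3, 0, 2, 0, 3],
  [1, 0, 2, 1, 2, 3, 2, 3, 2, 3, 1, 1, 0, 3, 3, 4, 1, 3, 0, 0, 0, 3, 0, 4, 4, 4, 3, 4, 0, 0, 4,
    0, 1, 3, 3, 0, 0, 4, 1, 0, 1, 1, 1, 4, 1, 3, 3, 1, 3, 4, 3, 4, 1, 1, 0, 4, 4, 3, 4, 2, 0, 3,
    0, 3, 0, 2, 0, 3]]

/-- a certificate -/
def uu18_9 : List ℤ := [4, 4, 2, 3, 4, 3, 1, 3, 0, 0, 2, 0, 1, 0, 2, 0, 3]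

/-- a certificate -/
def ww18_9 : List ℤ := [0, 4, 0, 3, 0, 3, 0, 3]

/-- a certificate -/
def uu18_6 : List ℤ := [1, 2, 2, 3, 3, 2, 3, 0, 2, 1, 1, 4, 3, 1, 4, 3, 2, 3]

/-- a certificate -/
def ww18_6 : List ℤ := [2, 4, 0, 4, 3, 1, 3, 3, 4, 0, 0, 4, 4, 3, 1, 0, 1]


section Lists

variable {K : Type*} [CommRing K]

/-- evaluation of a list of integer coefficients -/
def evL : List ℤ → K → K
  | [], _ => 0
  | a :: l, x => (a : K) + x * evL l x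

/-- sum -/
def addL : List ℤ → List ℤ → List ℤ
  | [], l => l
  | a :: l, [] => a :: l
  | a :: l, b :: m => (a + b) :: addL l m

/-- scalar multiple -/
def smulL (c : ℤ) : List ℤ → List ℤ
  | [] => []
  | a :: l => c * a :: smulL c l

/-- product -/
def mulL : List ℤ → List ℤ → List ℤ
  | [], _ => []
  | a :: l, m => addL (smulL a m) (0 :: mulL l m)

/-- substitution of the fifth power -/
def ex5 : List ℤ → List ℤ
  | [] => []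
  | a :: l => a :: 0 :: 0 :: 0 :: 0 :: ex5 l

/-- all coefficients are divisible by `5` -/
def z5 : List ℤ → Bool
  | [] => true
  | a :: l => (a % 5 == 0) && z5 l

theorem ev_addL (l m : List ℤ) (x : K) : evL (addL l m) x = evL l x + evL m x := by
  induction l generalizing m with
  | nil => simp [addL, evL]
  | cons a l ih =>
    cases m with
    | nil => simp [addL, evL]
    | cons b m =>
      simp only [addL, evL, ih]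
      push_cast
      ring

theorem ev_smulL (c : ℤ) (l : List ℤ) (x : K) : evL (smulL c l) x = c * evL l x := by
  induction l with
  | nil => simp [smulL, evL]
  | cons a l ih =>
    simp only [smulL, evL, ih]
    push_cast
    ring

theorem ev_mulL (l m : List ℤ) (x : K) : evL (mulL l m) x = evL l x * evL m x := by
  induction l with
  | nil => simp [mulL, evL]
  | cons a l ih =>
    simp only [mulL, evL, ev_addL, ev_smulL, ih]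
    push_cast
    ring

theorem ev_ex5 (l : List ℤ) (x : K) : evL (ex5 l) x = evL l (x ^ 5) := by
  induction l with
  | nil => simp [ex5, evL]
  | cons a l ih =>
    simp only [ex5, evL, ih]
    push_cast
    ring

theorem ev_z5 [CharP K 5] (l : List ℤ) (h : z5 l = true) (x : K) : evL l x = 0 := by
  induction l with
  | nil => simp [evL]
  | cons a l ih =>
    simp only [z5, Bool.and_eq_true, beq_iff_eq] at h
    have h1 : (a : K) = 0 := by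
      have : (5 : ℤ) ∣ a := Int.dvd_of_emod_eq_zero h.1
      exact (CharP.intCast_eq_zero_iff K 5 a).2 (by exact_mod_cast this)
    simp only [evL, h1, ih h.2]
    ring

theorem ev_pow5 [CharP K 5] (l : List ℤ) (x : K) : evL l (x ^ 5) = (evL l x) ^ 5 := by
  have : Fact (Nat.Prime 5) := ⟨by norm_num⟩
  induction l with
  | nil => simp [evL]
  | cons a l ih =>
    simp only [evL]
    rw [add_pow_char (R := K) (p := 5), mul_pow, ih]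
    congr 1
    have h0 : (((a ^ 5 - a : ℤ)) : K) = 0 := by
      refine (CharP.intCast_eq_zero_iff K 5 _).2 ?_
      have h1 : ((a ^ 5 - a : ℤ) : ZMod 5) = 0 := by
        push_cast
        rw [ZMod.pow_card, sub_self]
      exact_mod_cast (ZMod.intCast_zmod_eq_zero_iff_dvd (a ^ 5 - a) 5).1 h1
    push_cast at h0
    exact (sub_eq_zero.1 h0).symm

/-- the value of `P` -/
def vP (x : K) : K :=
  let c := x ^ 3 + 4 * x + 1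
  c ^ 3 + c - x

/-- the value of the cofactor -/
def vQ (x : K) : K :=
  let y := x ^ 3 + x
  let u := y ^ 3 + 4 * y + 1
  u ^ 2 + u * x + x ^ 2 + 1

theorem ev_cf9 [CharP K 5] (x : K) : evL cf9 x = vP x := by
  have h5 : (5 : K) = 0 := by
    have := CharP.cast_eq_zero K 5
    exact_mod_cast this
  simp only [cf9, evL, vP]
  push_cast
  linear_combination ((-3)*x^1 + (-9)*x^2 + (-13)*x^3 + (-4)*x^4 + (-9)*x^5 + (-2)*x^7) * h5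

theorem ev_cf18 [CharP K 5] (x : K) : evL cf18 x = vQ x := by
  have h5 : (5 : K) = 0 := by
    have := CharP.cast_eq_zero K 5
    exact_mod_cast this
  simp only [cf18, evL, vQ]
  push_cast
  linear_combination ((-1)*x^1 + (-4)*x^2 + (-2)*x^3 + (-9)*x^4 + (-1)*x^5 + (-10)*x^6 +
    (-1)*x^7 + (-11)*x^8 + (-9)*x^10 + (-5)*x^12 + (-3)*x^14 + (-1)*x^16) * h5

end Lists

/-- the certificates for the iterated fifth powers -/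
def chkAll (cf : List ℤ) (HH QQ : List (List ℤ)) (n : ℕ) : Bool :=
  (List.range n).all (fun i =>
    z5 (addL (smulL (-1) (ex5 (HH.getD i []))) (addL (HH.getD (i + 1) [])
      (mulL (QQ.getD i []) cf)))) && (HH.getD 0 [] == [0, 1]) && (HH.getD n [] == [0, 1])

/-- the certificate for the absence of a common factor -/
def chkOne (cf h uu ww : List ℤ) : Bool :=
  z5 (addL [-1] (addL (mulL uu (addL h [0, -1])) (mulL ww cf)))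

theorem all9 : chkAll cf9 HH9 QQ9 9 = true := by decide +kernel
theorem all18 : chkAll cf18 HH18 QQ18 18 = true := by decide +kernel
theorem one9_3 : chkOne cf9 (HH9.getD 3 []) uu9_3 ww9_3 = true := by decide +kernel
theorem one18_9 : chkOne cf18 (HH18.getD 9 []) uu18_9 ww18_9 = true := by decide +kernel
theorem one18_6 : chkOne cf18 (HH18.getD 6 []) uu18_6 ww18_6 = true := by decide +kernel

section Field

variable {K : Type*} [Field K] [CharP K 5] {a : K} {cf : List ℤ} {HH QQ : List (List ℤ)} {n : ℕ}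

theorem ev_HH (hc : chkAll cf HH QQ n = true) (ha : evL cf a = 0) (i : ℕ) (hi : i ≤ n) :
    evL (HH.getD i []) a = a ^ (5 ^ i) := by
  unfold chkAll at hc
  simp only [Bool.and_eq_true, beq_iff_eq] at hc
  induction i with
  | zero =>
    rw [hc.1.2]
    simp [evL]
  | succ i ih =>
    have h1 := List.all_eq_true.1 hc.1.1 i (List.mem_range.2 (by omega))
    have h2 := ev_z5 _ h1 a
    rw [ev_addL, ev_addL, ev_smulL, ev_mulL, ev_ex5, ha, ev_pow5, ih (by omega)] at h2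
    have h3 : evL (HH.getD (i + 1) []) a = (a ^ 5 ^ i) ^ 5 := by
      push_cast at h2
      linear_combination h2
    rw [h3, ← pow_mul, pow_succ]

theorem pow_n (hc : chkAll cf HH QQ n = true) (ha : evL cf a = 0) : a ^ 5 ^ n = a := by
  rw [← ev_HH hc ha n le_rfl]
  unfold chkAll at hc
  simp only [Bool.and_eq_true, beq_iff_eq] at hc
  rw [hc.2]
  simp [evL]

theorem pow_ne (hc : chkAll cf HH QQ n = true) (ha : evL cf a = 0) {j : ℕ} (hj : j ≤ n)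
    {uu ww : List ℤ} (h1 : chkOne cf (HH.getD j []) uu ww = true) : a ^ 5 ^ j ≠ a := by
  intro h
  have h2 := ev_z5 _ h1 a
  have h3 := ev_HH hc ha j hj
  rw [ev_addL, ev_addL, ev_mulL, ev_mulL, ev_addL, ha, h3, h] at h2
  simp [evL] at h2

omit [CharP K 5] in
theorem iter (n : ℕ) : (fun x : K => x ^ 5)^[n] a = a ^ 5 ^ n := by
  induction n with
  | zero => simp
  | succ n ih =>
    rw [Function.iterate_succ_apply', ih, ← pow_mul, pow_succ]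

omit [CharP K 5] in
theorem dvd_of_pow {n : ℕ} (hn : 0 < n) (h1 : a ^ 5 ^ n = a)
    (h2 : ∀ l : ℕ,
    l.Prime → l ∣ n → a ^ 5 ^ (n / l) ≠ a) {d : ℕ} (hd : a ^ 5 ^ d = a) : n ∣ d := by
  have p0 : ∀ m : ℕ, a ^ 5 ^ m = a ↔ Function.IsPeriodicPt (fun x : K => x ^ 5) m a := by
    intro m
    unfold Function.IsPeriodicPt Function.IsFixedPt
    rw [iter]
  set e := Function.minimalPeriod (fun x : K => x ^ 5) a with he
  have he1 : e ∣ n := ((p0 n).1 h1).minimalPeriod_dvd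
  have he2 : e ∣ d := ((p0 d).1 hd).minimalPeriod_dvd
  by_cases hen : e = n
  · rw [← hen]
    exact he2
  · exfalso
    obtain ⟨r, hr⟩ := he1
    have hr1 : r ≠ 1 := by
      rintro rfl
      rw [mul_one] at hr
      exact hen hr.symm
    obtain ⟨l, hl, hlr⟩ := Nat.exists_prime_and_dvd hr1
    apply h2 l hl (hlr.trans ⟨e, by rw [hr]; ring⟩)
    rw [p0]
    obtain ⟨r', rfl⟩ := hlr
    have h5 : n / l = e * r' := by
      rw [hr, show e * (l * r') = l * (e * r') by ring, Nat.mul_div_cancel_left _ hl.pos]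
    rw [h5]
    exact (Function.isPeriodicPt_minimalPeriod _ a).mul_const r'

end Field

theorem irr_of {k : Type} [Field k] [Finite k] [CharP k 5] {m : ℕ} (hm : Nat.card k = 5 ^ m) {n : ℕ}
    (hmn : m.Coprime n) {R : k[X]} (hR : R.natDegree = n) (hn : 0 < n)
    (h : ∀ (F : Type) [Field F] [Algebra k F] [CharP F 5] (a : F), aeval a R = 0 →
      ∀ d : ℕ, a ^ 5 ^ d = a → n ∣ d) : Irreducible R := by
  have : Fact (Nat.Prime 5) := ⟨by norm_num⟩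
  obtain ⟨g, hg, hgR⟩ := exists_irreducible_of_natDegree_ne_zero (f := R) (by omega)
  have : Fact (Irreducible g) := ⟨hg⟩
  have hfin : Module.Finite k (AdjoinRoot g) :=
    Module.Finite.of_basis (AdjoinRoot.powerBasis hg.ne_zero).basis
  have : Finite (AdjoinRoot g) := Module.finite_of_finite k
  let : Fintype (AdjoinRoot g) := Fintype.ofFinite _
  have : CharP (AdjoinRoot g) 5 := charP_of_injective_algebraMap
    (algebraMap k (AdjoinRoot g)).injective 5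
  have hcard : Fintype.card (AdjoinRoot g) = 5 ^ (m * g.natDegree) := by
    rw [← Nat.card_eq_fintype_card, Module.natCard_eq_pow_finrank (K := k), hm,
      (AdjoinRoot.powerBasis hg.ne_zero).finrank, AdjoinRoot.powerBasis_dim, pow_mul]
  have hroot : aeval (AdjoinRoot.root g) R = 0 := by
    obtain ⟨u, hu⟩ := hgR
    rw [hu, map_mul, AdjoinRoot.aeval_eq, AdjoinRoot.mk_self, zero_mul]
  have h1 := h _ (AdjoinRoot.root g) hroot (m * g.natDegree) (by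
    rw [← hcard]
    exact FiniteField.pow_card _)
  have h2 : n ∣ g.natDegree := hmn.symm.dvd_of_dvd_mul_left h1
  obtain ⟨u, hu⟩ := hgR
  have hR0 : R ≠ 0 := by
    rintro rfl
    rw [natDegree_zero] at hR
    omega
  have hu0 : u ≠ 0 := by
    rintro rfl
    rw [mul_zero] at hu
    exact hR0 hu
  have hle := congrArg natDegree hu
  rw [hR, natDegree_mul hg.ne_zero hu0] at hle
  have h3 := Nat.le_of_dvd hg.natDegree_pos h2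
  have hu1 : IsUnit u := isUnit_iff_degree_eq_zero.2 (by
    rw [degree_eq_natDegree hu0]
    have : u.natDegree = 0 := by omega
    rw [this]
    rfl)
  rw [hu, irreducible_mul_isUnit hu1]
  exact hg

section main

variable (k : Type) [Field k]

/-- `f = x ^ 3 + x` -/
noncomputable def fE : k[X] := X ^ 3 + X

/-- `c = t ^ 3 + 4 t + 1` -/
noncomputable def cE : k[X] := X ^ 3 + 4 * X + 1

theorem fE_monic : (fE k).Monic := by unfold fE; monicity!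

theorem fE_deg : (fE k).natDegree = 3 := by unfold fE; compute_degree!

theorem cE_deg : (cE k).natDegree = 3 := by unfold cE; compute_degree!

theorem fE_coeff : (fE k).coeff 2 = 0 ∧ (fE k).coeff 1 = 1 ∧ (fE k).coeff 0 = 0 := by
  unfold fE
  refine ⟨?_, ?_, ?_⟩ <;> simp [coeff_X_pow, coeff_X]

theorem eval_fE {F : Type} [Field F] [Algebra k F] (a : F) : aeval a (fE k) = a ^ 3 + a := by
  unfold fE
  simp

theorem eval_cE {F : Type} [Field F] [Algebra k F] (a : F) :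
    aeval a (cE k) = a ^ 3 + 4 * a + 1 := by
  unfold cE
  rw [map_add, map_add, map_mul, map_pow, aeval_X, map_ofNat, map_one]

theorem irr [Finite k] [CharP k 5] {m : ℕ} (hm : Nat.card k = 5 ^ m) (h6 : m.Coprime 6) :
    Irreducible (PP (fE k) (cE k)) ∧ Irreducible (P2 (fE k) (cE k)) := by
  have hco := fE_coeff k
  have hN : (PP (fE k) (cE k)).natDegree = 9 := by
    unfold PP
    have h1 : ((fE k).comp (cE k)).natDegree = 9 := by rw [natDegree_comp, fE_deg, cE_deg]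
    rw [natDegree_sub_eq_left_of_natDegree_lt (by rw [h1, natDegree_X]; norm_num), h1]
  have h9 : m.Coprime 9 := by
    have h3 : m.Coprime 3 := Nat.Coprime.coprime_dvd_right (by norm_num) h6
    exact Nat.Coprime.pow_right 2 h3
  have h18 : m.Coprime 18 := by
    have h2 : m.Coprime 2 := Nat.Coprime.coprime_dvd_right (by norm_num) h6
    exact Nat.Coprime.mul_right h2 h9
  have hirr : Irreducible (PP (fE k) (cE k)) := by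
    refine irr_of hm h9 hN (by norm_num) fun F _ _ _ a ha d hd => ?_
    have hev : evL cf9 a = 0 := by
      rw [ev_cf9, vP, ← ha]
      unfold PP
      rw [map_sub, aeval_comp, aeval_X, eval_fE, eval_cE]
    refine dvd_of_pow (by norm_num) (pow_n all9 hev) (fun l hl hl9 => ?_) hd
    have : l = 3 := (Nat.prime_dvd_prime_iff_eq hl Nat.prime_three).1
      (hl.dvd_of_dvd_pow (show l ∣ 3 ^ 2 from hl9))
    subst this
    exact pow_ne all9 hev (by norm_num) one9_3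
  refine ⟨hirr, ?_⟩
  have hd2 := natDegree_P2 (fE_monic k) (fE_deg k) hirr
  rw [hN] at hd2
  refine irr_of hm h18 hd2 (by norm_num) fun F _ _ _ a ha d hd => ?_
  have hev : evL cf18 a = 0 := by
    rw [ev_cf18, vQ, ← ha]
    unfold P2
    rw [hco.1, hco.2.1]
    simp only [map_add, map_mul, map_pow, map_zero, map_one, aeval_X, aeval_comp, eval_fE,
    eval_cE,
      C_0, C_1]
    ring
  refine dvd_of_pow (by norm_num) (pow_n all18 hev) (fun l hl hl18 => ?_) hd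
  have hl' : l = 2 ∨ l = 3 := by
    have h1 : l ∣ 2 * 3 ^ 2 := hl18
    rcases hl.dvd_mul.1 h1 with h2 | h2
    · exact Or.inl ((Nat.prime_dvd_prime_iff_eq hl Nat.prime_two).1 h2)
    · exact Or.inr ((Nat.prime_dvd_prime_iff_eq hl Nat.prime_three).1 (hl.dvd_of_dvd_pow h2))
  rcases hl' with rfl | rfl
  · exact pow_ne all18 hev (by norm_num) one18_9
  · exact pow_ne all18 hev (by norm_num) one18_6

end main

end Pool.Agent.X261.TW.Ex
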