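import Mathlib

/-!
Two-descent on the curves `D y ^ 2 = f(x) - t`: the divisor of the function `x - X`.
-/

set_option autoImplicit false

open Polynomial

namespace Pool.Agent.X261.TW

section mult

variable {k : Type} [Field k]

theorem fin_mult {Q Z : k[X]} (hQ : Irreducible Q) (hZ : Z ≠ 0) : FiniteMultiplicity Q Z :=
  FiniteMultiplicity.of_prime_left hQ.prime hZ

theorem mult_mul {Q A B : k[X]} (hQ : Irreducible Q) (hA : A ≠ 0) (hB : B ≠ 0) :
    multiplicity Q (A * B) = multiplicity Q A + multiplicity Q B :=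
  multiplicity_mul hQ.prime (fin_mult hQ (mul_ne_zero hA hB))

theorem mult_sq {Q A : k[X]} (hQ : Irreducible Q) (hA : A ≠ 0) :
    multiplicity Q (A ^ 2) = 2 * multiplicity Q A := by
  rw [pow_two, mult_mul hQ hA hA, two_mul]

theorem mult_zero {Q A : k[X]} (h : ¬ Q ∣ A) : multiplicity Q A = 0 :=
  multiplicity_eq_zero.2 h

theorem mult_pos {Q A : k[X]} (hQ : Irreducible Q) (hA : A ≠ 0) (h : Q ∣ A) :
    0 < multiplicity Q A := by
  rcases Nat.eq_zero_or_pos (multiplicity Q A) with h0 | h0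
  · exact absurd h (multiplicity_eq_zero.1 h0)
  · exact h0

/-- `Z` is a square times a divisor of a power of `D` -/
def EvenOff (D Z : k[X]) : Prop := ∃ (n : ℕ) (E H : k[X]), E ∣ D ^ n ∧ Z = E * H ^ 2

theorem EvenOff.mul {D Z Z' : k[X]} (h : EvenOff D Z) (h' : EvenOff D Z') :
    EvenOff D (Z * Z') := by
  obtain ⟨n, E, H, h1, h2⟩ := h
  obtain ⟨n', E', H', h1', h2'⟩ := h'
  refine ⟨n + n', E * E', H * H', ?_, by rw [h2, h2']; ring⟩
  rw [pow_add]
  exact mul_dvd_mul h1 h1'

theorem EvenOff.comp {D Z : k[X]} (h : EvenOff D Z) (f : k[X]) :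
    EvenOff (D.comp f) (Z.comp f) := by
  obtain ⟨n, E, H, ⟨E', h1⟩, h2⟩ := h
  refine ⟨n, E.comp f, H.comp f, ⟨E'.comp f, ?_⟩, by rw [h2, mul_comp, pow_comp]⟩
  rw [← pow_comp, h1, mul_comp]

theorem EvenOff.even {D Z Q : k[X]} (h : EvenOff D Z) (hZ : Z ≠ 0) (hQ : Irreducible Q)
    (hQD : ¬ Q ∣ D) : Even (multiplicity Q Z) := by
  obtain ⟨n, E, H, h1, h2⟩ := h
  have hE : E ≠ 0 := by
    rintro rfl
    rw [zero_mul] at h2
    exact hZ h2
  have hH : H ≠ 0 := by
    rintro rfl
    rw [zero_pow two_ne_zero, mul_zero] at h2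
    exact hZ h2
  have h3 : ¬ Q ∣ E := fun h4 => hQD (hQ.prime.dvd_of_dvd_pow (h4.trans h1))
  rw [h2, mult_mul hQ hE (pow_ne_zero 2 hH), mult_zero h3, mult_sq hQ hH, zero_add]
  exact even_two_mul _

theorem evenOff_of {D Z : k[X]} (hZ : Z ≠ 0)
    (h : ∀ Q : k[X], Irreducible Q → ¬ Q ∣ D → Even (multiplicity Q Z)) : EvenOff D Z := by
  induction hn : Z.natDegree using Nat.strong_induction_on generalizing Z with
  | _ n ih =>
    by_cases hu : IsUnit Z
    · exact ⟨0, Z, 1, by rw [pow_zero]; exact hu.dvd, by ring⟩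
    · obtain ⟨Q, hQ, Z', hZ'⟩ := WfDvdMonoid.exists_irreducible_factor hu hZ
      have hQ0 := hQ.ne_zero
      have hZ0 : Z' ≠ 0 := by
        rintro rfl
        rw [mul_zero] at hZ'
        exact hZ hZ'
      have hdQ : 0 < Q.natDegree := hQ.natDegree_pos
      by_cases hQD : Q ∣ D
      · have h1 : EvenOff D Z' := by
          refine ih Z'.natDegree ?_ hZ0 (fun Q' hQ' hQD' => ?_) rfl
          · rw [← hn, hZ', natDegree_mul hQ0 hZ0]
            omega
          · have h2 := h Q' hQ' hQD'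
            have h3 : ¬ Q' ∣ Q := fun h4 => hQD' (h4.trans hQD)
            rwa [hZ', mult_mul hQ' hQ0 hZ0, mult_zero h3, zero_add] at h2
        obtain ⟨m, E, H, h4, h5⟩ := h1
        refine ⟨m + 1, Q * E, H, ?_, by rw [hZ', h5]; ring⟩
        rw [pow_succ, mul_comm]
        exact mul_dvd_mul h4 hQD
      · have h1 := h Q hQ hQD
        have h2 := mult_pos hQ hZ ⟨Z', hZ'⟩
        have h3 : Q ^ 2 ∣ Z := by
          apply pow_dvd_of_le_multiplicity
          obtain ⟨m, hm⟩ := h1
          omega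
        obtain ⟨Z'', hZ''⟩ := h3
        have hZ2 : Z'' ≠ 0 := by
          rintro rfl
          rw [mul_zero] at hZ''
          exact hZ hZ''
        have h4 : EvenOff D Z'' := by
          refine ih Z''.natDegree ?_ hZ2 (fun Q' hQ' hQD' => ?_) rfl
          · rw [← hn, hZ'', natDegree_mul (pow_ne_zero 2 hQ0) hZ2, natDegree_pow]
            omega
          · have h5 := h Q' hQ' hQD'
            rw [hZ'', mult_mul hQ' (pow_ne_zero 2 hQ0) hZ2, mult_sq hQ' hQ0] at h5
            exact (Nat.even_add.1 h5).1 (even_two_mul _)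
        obtain ⟨m, E, H, h6, h7⟩ := h4
        exact ⟨m, E, Q * H, h6, by rw [hZ'', h7]; ring⟩

end mult

section curve

variable {k : Type} [Field k]

/-- the homogeneous form of `f(x) - t` -/
noncomputable def hom (f A B : k[X]) : k[X] :=
  A ^ 3 + C (f.coeff 2) * A ^ 2 * B + C (f.coeff 1) * A * B ^ 2 + (C (f.coeff 0) - X) * B ^ 3

theorem cubic_eq {f : k[X]} (hf : f.Monic) (hd : f.natDegree = 3) :
    f = X ^ 3 + C (f.coeff 2) * X ^ 2 + C (f.coeff 1) * X + C (f.coeff 0) := by
  conv_lhs => rw [f.as_sum_range, hd]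
  rw [Finset.sum_range_succ, Finset.sum_range_succ, Finset.sum_range_succ,
    Finset.sum_range_one]
  have h3 : f.coeff 3 = 1 := by
    have := hf.coeff_natDegree
    rwa [hd] at this
  rw [h3, ← C_mul_X_pow_eq_monomial, ← C_mul_X_pow_eq_monomial, ← C_mul_X_pow_eq_monomial,
    ← C_mul_X_pow_eq_monomial, C_1]
  ring

variable {f : k[X]}

/-- the cofactor of `a - X b` -/
noncomputable def cof (f a b : k[X]) : k[X] :=
  a ^ 2 + a * X * b + X ^ 2 * b ^ 2 + C (f.coeff 2) * b * (a + X * b) + C (f.coeff 1) * b ^ 2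

theorem hom_comp (hf : f.Monic) (hd : f.natDegree = 3) (A B : k[X]) :
    (hom f A B).comp f = (A.comp f - X * B.comp f) * cof f (A.comp f) (B.comp f) := by
  have h := cubic_eq hf hd
  unfold hom cof
  simp only [add_comp, mul_comp, pow_comp, sub_comp, C_comp, X_comp]
  linear_combination (-(B.comp f) ^ 3) * h

theorem hom_deriv (A B : k[X]) : derivative (hom f A B) =
    (3 * A ^ 2 + 2 * C (f.coeff 2) * A * B + C (f.coeff 1) * B ^ 2) * derivative A +
    (C (f.coeff 2) * A ^ 2 + 2 * C (f.coeff 1) * A * B + 3 * (C (f.coeff 0) - X) * B ^ 2) *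
      derivative B - B ^ 3 := by
  unfold hom
  simp only [derivative_add, derivative_mul, derivative_pow, derivative_C, derivative_sub,
    derivative_X]
  norm_num
  have e2 : (C (2 : k) : k[X]) = 2 := map_ofNat C 2
  have e3 : (C (3 : k) : k[X]) = 3 := map_ofNat C 3
  try rw [e2]
  try rw [e3]
  ring

theorem deriv_eq (hf : f.Monic) (hd : f.natDegree = 3) :
    derivative f = 3 * X ^ 2 + 2 * C (f.coeff 2) * X + C (f.coeff 1) := by
  conv_lhs => rw [cubic_eq hf hd]
  simp only [derivative_add, derivative_mul, derivative_pow, derivative_C, derivative_X]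
  norm_num
  have e2 : (C (2 : k) : k[X]) = 2 := map_ofNat C 2
  have e3 : (C (3 : k) : k[X]) = 3 := map_ofNat C 3
  try rw [e2]
  try rw [e3]
  ring

/-- at a prime dividing `a - X b` and at which `hom f A B` has even order, not dividing `D` -/
theorem not_dvd_cof (hf : f.Monic) (hd : f.natDegree = 3) {A B D Q : k[X]} (hAB : IsCoprime A B)
    (hD : EvenOff D (hom f A B)) (hQ : Irreducible Q) (hQD : ¬ Q ∣ D.comp f)
    (hQz : Q ∣ A.comp f - X * B.comp f) : ¬ Q ∣ cof f (A.comp f) (B.comp f) := by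
  have hc : IsCoprime (A.comp f) (B.comp f) := hAB.map (compRingHom f)
  set a := A.comp f with ha
  set b := B.comp f with hb
  have hQb : ¬ Q ∣ b := by
    intro h
    have h1 : Q ∣ a := by
      have := dvd_add hQz (h.mul_left X)
      rwa [sub_add_cancel] at this
    exact hQ.not_isUnit (hc.isUnit_of_dvd' h1 h)
  obtain ⟨n, E, H, h1, h2⟩ := hD
  have hQE : ¬ Q ∣ E.comp f := by
    intro h
    apply hQD
    have h3 : E.comp f ∣ (D.comp f) ^ n := by
      obtain ⟨E', h4⟩ := h1
      exact ⟨E'.comp f, by rw [← pow_comp, h4, mul_comp]⟩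
    exact hQ.prime.dvd_of_dvd_pow (h.trans h3)
  have hQH : Q ∣ H.comp f := by
    have h3 : Q ∣ (hom f A B).comp f := by
      rw [hom_comp hf hd]
      exact hQz.mul_right _
    rw [h2, mul_comp, pow_comp] at h3
    exact hQ.prime.dvd_of_dvd_pow ((hQ.prime.dvd_or_dvd h3).resolve_left hQE)
  have hQd : Q ∣ (derivative (hom f A B)).comp f := by
    rw [h2, derivative_mul, derivative_pow, add_comp, mul_comp, mul_comp, pow_comp, mul_comp,
      mul_comp, pow_comp]
    norm_num
    refine dvd_add ?_ ?_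
    · exact (dvd_pow hQH two_ne_zero).mul_left _
    · exact ((hQH.mul_left _).mul_right _).mul_left _
  have hmod : ∀ u v : k[X], Q ∣ u - v → (Q ∣ u ↔ Q ∣ v) := fun u v h => by
    constructor
    · intro h3
      have := dvd_sub h3 h
      rwa [sub_sub_cancel] at this
    · intro h3
      have := dvd_add h h3
      rwa [sub_add_cancel] at this
  have hfd : ¬ Q ∣ derivative f := by
    intro h
    apply hQb
    apply hQ.prime.dvd_of_dvd_pow (n := 3)
    rw [hom_deriv] at hQd
    simp only [add_comp, mul_comp, pow_comp, sub_comp, C_comp, X_comp, ofNat_comp,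
      ← ha, ← hb] at hQd
    have e := cubic_eq hf hd
    have e' := deriv_eq hf hd
    have key : b ^ 3 = -((3 * a ^ 2 + 2 * C (f.coeff 2) * a * b + C (f.coeff 1) * b ^ 2) *
        (derivative A).comp f + (C (f.coeff 2) * a ^ 2 + 2 * C (f.coeff 1) * a * b +
          3 * (C (f.coeff 0) - f) * b ^ 2) * (derivative B).comp f - b ^ 3) +
        derivative f * (b ^ 2 * ((derivative A).comp f - X * (derivative B).comp f)) +
        (a - X * b) * ((3 * (a + X * b) + 2 * C (f.coeff 2) * b) * (derivative A).comp f +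
          (C (f.coeff 2) * (a + X * b) + 2 * C (f.coeff 1) * b) * (derivative B).comp f) := by
      rw [e']
      linear_combination (-3 * b ^ 2 * (derivative B).comp f) * e
    rw [key]
    exact dvd_add (dvd_add ((dvd_neg).2 hQd) (h.mul_right _)) (hQz.mul_right _)
  intro h
  have h5 : Q ∣ b ^ 2 * derivative f := by
    refine (hmod _ _ ?_).1 h
    have : cof f a b - b ^ 2 * derivative f = (a - X * b) * (a + 2 * X * b + C (f.coeff 2) * b) := by
      rw [deriv_eq hf hd]
      unfold cof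
      ring
    rw [this]
    exact hQz.mul_right _
  rcases hQ.prime.dvd_or_dvd h5 with h6 | h6
  · exact hQb (hQ.prime.dvd_of_dvd_pow h6)
  · exact hfd h6

/-- the divisor of `a - X b` is even away from `D(f)` -/
theorem evenOff_point (hf : f.Monic) (hd : f.natDegree = 3) {A B D : k[X]} (hAB : IsCoprime A B)
    (h0 : hom f A B ≠ 0) (hD : EvenOff D (hom f A B)) :
    EvenOff (D.comp f) (A.comp f - X * B.comp f) := by
  have hfp : 0 < f.natDegree := by omega
  have hc0 : (hom f A B).comp f ≠ 0 := by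
    intro h
    rw [comp_eq_zero_iff] at h
    rcases h with h | h
    · exact h0 h
    · rw [h.2, natDegree_C] at hd
      omega
  have hmul := hom_comp hf hd A B
  rw [hmul] at hc0
  have hz0 := left_ne_zero_of_mul hc0
  have hz1 := right_ne_zero_of_mul hc0
  refine evenOff_of hz0 fun Q hQ hQD => ?_
  by_cases hQz : Q ∣ A.comp f - X * B.comp f
  · have h1 := not_dvd_cof hf hd hAB hD hQ hQD hQz
    have h2 := (hD.comp f).even (by rw [hmul]; exact hc0) hQ hQD
    rwa [hmul, mult_mul hQ hz0 hz1, mult_zero h1, add_zero] at h2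
  · rw [mult_zero hQz]
    exact Even.zero

/-- parity in a product of coprime polynomials -/
theorem evenOff_of_eq {M N D r s : k[X]} (hMN : IsCoprime M N) (hM : M ≠ 0) (hN : N ≠ 0)
    (hr : r ≠ 0) (hs : s ≠ 0) (hD : D ≠ 0) (h : M * N * s ^ 2 = D * r ^ 2) : EvenOff D M := by
  refine evenOff_of hM fun Q hQ hQD => ?_
  by_cases hQM : Q ∣ M
  · have hQN : ¬ Q ∣ N := fun h1 => hQ.not_isUnit (hMN.isUnit_of_dvd' hQM h1)
    have h2 := congrArg (multiplicity Q) h
    rw [mult_mul hQ (mul_ne_zero hM hN) (pow_ne_zero 2 hs), mult_mul hQ hM hN,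
      mult_mul hQ hD (pow_ne_zero 2 hr), mult_sq hQ hs, mult_sq hQ hr, mult_zero hQN,
      mult_zero hQD] at h2
    rw [Nat.even_iff]
    omega
  · rw [mult_zero hQM]
    exact Even.zero

theorem hom_coprime {A B : k[X]} (hAB : IsCoprime A B) : IsCoprime B (hom f A B) := by
  have h1 : hom f A B = A ^ 3 + B * (C (f.coeff 2) * A ^ 2 + C (f.coeff 1) * A * B +
      (C (f.coeff 0) - X) * B ^ 2) := by
    unfold hom
    ring
  rw [h1]
  exact IsCoprime.add_mul_left_right (hAB.symm.pow_right) _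

/-- the squarefree part of the function `x - X` at a point, up to the divisors of `D(f)` -/
theorem evenOff_total (hf : f.Monic) (hd : f.natDegree = 3) {A B D r s : k[X]}
    (hAB : IsCoprime A B) (hB : B ≠ 0) (h0 : hom f A B ≠ 0) (hD : D ≠ 0) (hr : r ≠ 0) (hs : s ≠ 0)
    (h : B * hom f A B * s ^ 2 = D * r ^ 2) :
    EvenOff (D.comp f) ((A.comp f - X * B.comp f) * B.comp f) := by
  have hc := hom_coprime (f := f) hAB
  have h1 := evenOff_of_eq hc hB h0 hr hs hD h
  have h2 := evenOff_of_eq hc.symm h0 hB hr hs hD (by rw [← h]; ring)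
  exact (evenOff_point hf hd hAB h0 h2).mul (h1.comp f)

end curve

end Pool.Agent.X261.TW
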