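import Pool.Agent.X261.TW.Alg
import Pool.Agent.X261.TW.Div

/-!
The field `L = k(x)` over `K = k(t)`, `t = f(x)`.
-/

set_option autoImplicit false

open Polynomial
open scoped Classical

namespace Pool.Agent.X261.TW

section gen

variable {K L : Type} [Field K] [Field L] [Algebra K L]

/-- `θ` is a root of the cubic, and `1, θ, θ ^ 2` is a basis. -/
structure IsGen (c2 c1 c0 : K) (θ : L) : Prop where
  root : θ ^ 3 + algebraMap K L c2 * θ ^ 2 + algebraMap K L c1 * θ + algebraMap K L c0 = 0
  span : ∀ s : L, ∃ a b c : K,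
    s = algebraMap K L a + algebraMap K L b * θ + algebraMap K L c * θ ^ 2
  indep : ∀ a b c : K, algebraMap K L a + algebraMap K L b * θ + algebraMap K L c * θ ^ 2 = 0 →
    a = 0 ∧ b = 0 ∧ c = 0

variable {c2 c1 c0 : K} {θ : L}

theorem IsGen.noRoot (h : IsGen c2 c1 c0 θ) (x : K) : x ^ 3 + c2 * x ^ 2 + c1 * x + c0 ≠ 0 := by
  intro hx
  have h1 : (θ - algebraMap K L x) * (algebraMap K L (x ^ 2 + c2 * x + c1) +
      algebraMap K L (x + c2) * θ + algebraMap K L 1 * θ ^ 2) = 0 := by
    have h2 := congrArg (algebraMap K L) hx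
    simp only [map_add, map_mul, map_pow, map_zero, map_one] at h2 ⊢
    linear_combination h.root - h2
  rcases mul_eq_zero.1 h1 with h2 | h2
  · have h3 := h.indep (-x) 1 0 (by
      rw [map_neg, map_one, map_zero]
      linear_combination h2)
    exact one_ne_zero h3.2.1
  · exact one_ne_zero (h.indep _ _ _ h2).2.2

theorem IsGen.short (h : IsGen c2 c1 c0 θ) (h2 : (2 : K) ≠ 0) {D : K} (hD : D ≠ 0)
    {W : WeierstrassCurve.Affine K} (a1 : W.a₁ = 0) (a2 : W.a₂ = c2 * D) (a3 : W.a₃ = 0)
    (a4 : W.a₄ = c1 * D ^ 2) (a6 : W.a₆ = c0 * D ^ 3) : IsShort W (algebraMap K L D * θ) := by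
  have hD' : algebraMap K L D ≠ 0 := (_root_.map_ne_zero _).2 hD
  refine ⟨a1, a3, h2, ?_, ?_, ?_, ?_⟩
  · rw [a2, a4, a6]
    simp only [map_mul, map_pow]
    linear_combination (algebraMap K L D) ^ 3 * h.root
  · intro x hx
    rw [a2, a4, a6] at hx
    apply h.noRoot (x / D)
    have : (x / D) ^ 3 + c2 * (x / D) ^ 2 + c1 * (x / D) + c0 =
        (x ^ 3 + c2 * D * x ^ 2 + c1 * D ^ 2 * x + c0 * D ^ 3) / D ^ 3 := by
      field_simp
    rw [this, hx, zero_div]
  · intro s
    obtain ⟨a, b, c, habc⟩ := h.span s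
    refine ⟨a, b / D, c / D ^ 2, ?_⟩
    rw [habc, map_div₀, map_div₀, map_pow]
    field_simp
  · intro a b c habc
    obtain ⟨h3, h4, h5⟩ := h.indep a (b * D) (c * D ^ 2) (by
      simp only [map_mul, map_pow]
      linear_combination habc)
    exact ⟨h3, (mul_eq_zero.1 h4).resolve_right hD,
      (mul_eq_zero.1 h5).resolve_right (pow_ne_zero 2 hD)⟩

/-- the basis `1, θ, θ ^ 2` -/
noncomputable def bas (h : IsGen c2 c1 c0 θ) : Module.Basis (Fin 3) K L :=
  Module.Basis.mk (v := ![1, θ, θ ^ 2])
    (by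
      rw [Fintype.linearIndependent_iff]
      intro g hg
      simp only [Fin.sum_univ_three, Algebra.smul_def] at hg
      have h1 := h.indep (g 0) (g 1) (g 2) (by simpa using hg)
      intro i
      fin_cases i
      · exact h1.1
      · exact h1.2.1
      · exact h1.2.2)
    (by
      intro s _
      obtain ⟨a, b, c, habc⟩ := h.span s
      rw [habc]
      have e : algebraMap K L a + algebraMap K L b * θ + algebraMap K L c * θ ^ 2 =
          a • (![1, θ, θ ^ 2] : Fin 3 → L) 0 + b • (![1, θ, θ ^ 2] : Fin 3 → L) 1 +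
            c • (![1, θ, θ ^ 2] : Fin 3 → L) 2 := by
        simp [Algebra.smul_def]
      rw [e]
      refine Submodule.add_mem _ (Submodule.add_mem _ ?_ ?_) ?_ <;>
      exact Submodule.smul_mem _ _ (Submodule.subset_span (Set.mem_range_self _)))

theorem bas_apply (h : IsGen c2 c1 c0 θ) (i : Fin 3) : bas h i = ![1, θ, θ ^ 2] i := by
  unfold bas
  rw [Module.Basis.mk_apply]

theorem IsGen.norm_map (h : IsGen c2 c1 c0 θ) (x : K) : Algebra.norm K (algebraMap K L x) = x ^ 3 := by
  rw [Algebra.norm_algebraMap_of_basis (bas h)]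
  rfl

theorem IsGen.norm_sub (h : IsGen c2 c1 c0 θ) (x : K) :
    Algebra.norm K (algebraMap K L x - θ) = x ^ 3 + c2 * x ^ 2 + c1 * x + c0 := by
  rw [Algebra.norm_eq_matrix_det (bas h)]
  have hrepr : ∀ (s : L) (a b c : K),
      s = algebraMap K L a + algebraMap K L b * θ + algebraMap K L c * θ ^ 2 →
      (bas h).repr s 0 = a ∧ (bas h).repr s 1 = b ∧ (bas h).repr s 2 = c := by
    intro s a b c hs
    have e : s = ∑ i : Fin 3, (![a, b, c] i) • bas h i := by
      rw [hs]
      simp [Fin.sum_univ_three, bas_apply, Algebra.smul_def]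
    rw [e]
    refine ⟨?_, ?_, ?_⟩ <;> rw [(bas h).repr_sum_self] <;> rfl
  have m0 := hrepr ((algebraMap K L x - θ) * bas h 0) x (-1) 0 (by
    rw [bas_apply]
    simp
    ring)
  have m1 := hrepr ((algebraMap K L x - θ) * bas h 1) 0 x (-1) (by
    rw [bas_apply]
    simp
    ring)
  have m2 := hrepr ((algebraMap K L x - θ) * bas h 2) c0 c1 (x + c2) (by
    rw [bas_apply]
    simp
    linear_combination -h.root)
  rw [Matrix.det_fin_three]
  simp only [Algebra.leftMulMatrix_eq_repr_mul]
  rw [m0.1, m0.2.1, m0.2.2, m1.1, m1.2.1, m1.2.2, m2.1, m2.2.1, m2.2.2]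
  ring

end gen

section cover

variable {k K L : Type} [Field k] [Field K] [Field L] [Algebra k[X] K] [IsFractionRing k[X] K]
  [Algebra k[X] L] [IsFractionRing k[X] L] [Algebra K L] {f : k[X]}

/-- `K = k(t)` is embedded in `L = k(x)` by `t = f(x)`. -/
def IsCover (K L : Type) [Field K] [Field L] [Algebra k[X] K] [Algebra k[X] L] [Algebra K L]
    (f : k[X]) : Prop :=
  ∀ g : k[X], algebraMap K L (algebraMap k[X] K g) = algebraMap k[X] L (g.comp f)

theorem inj_frac (F : Type) [Field F] [Algebra k[X] F] [IsFractionRing k[X] F] :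
    Function.Injective (algebraMap k[X] F) := IsFractionRing.injective k[X] F

theorem comp_sum_zero (hd : f.natDegree = 3) {A B C' : k[X]}
    (h : A.comp f + B.comp f * X + C'.comp f * X ^ 2 = 0) : A = 0 ∧ B = 0 ∧ C' = 0 := by
  have hdeg : ∀ Z : k[X], (Z.comp f).natDegree = Z.natDegree * 3 := fun Z => by
    rw [natDegree_comp, hd]
  have hz : ∀ Z : k[X], Z.comp f = 0 ↔ Z = 0 := by
    intro Z
    constructor
    · intro h0
      rw [comp_eq_zero_iff] at h0
      rcases h0 with h0 | h0
      · exact h0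
      · rw [h0.2, natDegree_C] at hd
        omega
    · rintro rfl
      exact zero_comp
  have hX : (X : k[X]) ≠ 0 := X_ne_zero
  have hB : ∀ Z : k[X], Z ≠ 0 → (Z.comp f * X).natDegree = Z.natDegree * 3 + 1 := by
    intro Z hZ
    rw [natDegree_mul (fun h0 => hZ ((hz Z).1 h0)) hX, hdeg, natDegree_X]
  have hC : ∀ Z : k[X], Z ≠ 0 → (Z.comp f * X ^ 2).natDegree = Z.natDegree * 3 + 2 := by
    intro Z hZ
    rw [natDegree_mul (fun h0 => hZ ((hz Z).1 h0)) (pow_ne_zero 2 hX), hdeg, natDegree_X_pow]
  by_cases hA0 : A = 0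
  · subst hA0
    rw [zero_comp, zero_add] at h
    by_cases hB0 : B = 0
    · subst hB0
      rw [zero_comp, zero_mul, zero_add] at h
      rcases mul_eq_zero.1 h with h1 | h1
      · exact ⟨rfl, rfl, (hz _).1 h1⟩
      · exact absurd h1 (pow_ne_zero 2 hX)
    · exfalso
      have h1 : B.comp f * X = -(C'.comp f * X ^ 2) := by linear_combination h
      have hC0 : C' ≠ 0 := by
        rintro rfl
        rw [zero_comp, zero_mul, neg_zero] at h1
        rcases mul_eq_zero.1 h1 with h2 | h2
        · exact hB0 ((hz _).1 h2)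
        · exact hX h2
      have h2 := congrArg natDegree h1
      rw [natDegree_neg, hB _ hB0, hC _ hC0] at h2
      omega
  · exfalso
    by_cases hB0 : B = 0
    · subst hB0
      rw [zero_comp, zero_mul, add_zero] at h
      have h1 : A.comp f = -(C'.comp f * X ^ 2) := by linear_combination h
      have hC0 : C' ≠ 0 := by
        rintro rfl
        rw [zero_comp, zero_mul, neg_zero] at h1
        exact hA0 ((hz _).1 h1)
      have h2 := congrArg natDegree h1
      rw [natDegree_neg, hdeg, hC _ hC0] at h2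
      omega
    · have h1 : A.comp f + B.comp f * X = -(C'.comp f * X ^ 2) := by linear_combination h
      have h3 : (A.comp f + B.comp f * X).natDegree =
          max (A.natDegree * 3) (B.natDegree * 3 + 1) := by
        rcases lt_or_gt_of_ne (show A.natDegree * 3 ≠ B.natDegree * 3 + 1 by omega) with h5 | h5
        · rw [natDegree_add_eq_right_of_natDegree_lt (by rw [hdeg, hB _ hB0]; exact h5), hB _ hB0]
          omega
        · rw [natDegree_add_eq_left_of_natDegree_lt (by rw [hdeg, hB _ hB0]; exact h5), hdeg]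
          omega
      have hC0 : C' ≠ 0 := by
        rintro rfl
        rw [zero_comp, zero_mul, neg_zero] at h1
        rw [h1, natDegree_zero] at h3
        omega
      have h2 := congrArg natDegree h1
      rw [natDegree_neg, h3, hC _ hC0] at h2
      omega

theorem exists_frac (F : Type) [Field F] [Algebra k[X] F] [IsFractionRing k[X] F] (x : F) :
    ∃ a b : k[X], b ≠ 0 ∧ x * algebraMap k[X] F b = algebraMap k[X] F a := by
  obtain ⟨a, b, hb, h⟩ := IsFractionRing.div_surjective (A := k[X]) x
  have hb0 : b ≠ 0 := nonZeroDivisors.ne_zero hb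
  refine ⟨a, b, hb0, ?_⟩
  rw [← h, div_mul_cancel₀]
  exact (map_ne_zero_iff _ (inj_frac F)).2 hb0

theorem isGen (hc : IsCover K L f) (hm : f.Monic) (hd : f.natDegree = 3) :
    IsGen (algebraMap k[X] K (C (f.coeff 2))) (algebraMap k[X] K (C (f.coeff 1)))
      (algebraMap k[X] K (C (f.coeff 0) - X)) (algebraMap k[X] L X) := by
  set θ := algebraMap k[X] L X with hθ
  have hroot : θ ^ 3 + algebraMap K L (algebraMap k[X] K (C (f.coeff 2))) * θ ^ 2 +
      algebraMap K L (algebraMap k[X] K (C (f.coeff 1))) * θ +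
      algebraMap K L (algebraMap k[X] K (C (f.coeff 0) - X)) = 0 := by
    rw [hc, hc, hc, C_comp, C_comp, sub_comp, C_comp, X_comp, hθ, ← map_pow, ← map_pow, ← map_mul,
      ← map_mul, ← map_add, ← map_add, ← map_add]
    have h := cubic_eq hm hd
    have : (X ^ 3 + C (f.coeff 2) * X ^ 2 + C (f.coeff 1) * X + (C (f.coeff 0) - f) : k[X]) = 0 := by
      linear_combination -h
    rw [this, map_zero]
  refine ⟨hroot, ?_, ?_⟩
  · -- generation
    intro s
    set F : K[X] := X ^ 3 + C (algebraMap k[X] K (C (f.coeff 2))) * X ^ 2 +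
      C (algebraMap k[X] K (C (f.coeff 1))) * X + C (algebraMap k[X] K (C (f.coeff 0) - X)) with hF
    have hFm : F.Monic := by rw [hF]; monicity!
    have hFd : F.natDegree = 3 := by rw [hF]; compute_degree!
    have hFθ : aeval θ F = 0 := by
      rw [hF]
      simp only [map_add, map_mul, map_pow, aeval_C, aeval_X]
      exact hroot
    have hint : IsIntegral K θ := ⟨F, hFm, hFθ⟩
    have htop : IntermediateField.adjoin K {θ} = ⊤ := by
      rw [eq_top_iff]
      intro z _
      have hpoly : ∀ p : k[X], algebraMap k[X] L p ∈ IntermediateField.adjoin K {θ} := by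
        intro p
        induction p using Polynomial.induction_on' with
        | add p q hp hq => rw [map_add]; exact add_mem hp hq
        | monomial n c =>
          rw [← C_mul_X_pow_eq_monomial, map_mul, map_pow]
          refine mul_mem ?_ (pow_mem (IntermediateField.mem_adjoin_simple_self K θ) n)
          have h1 := hc (C c)
          rw [C_comp] at h1
          rw [← h1]
          exact IntermediateField.algebraMap_mem _ _
      obtain ⟨a, b, hb, h⟩ := exists_frac (k := k) L z
      have hb' : algebraMap k[X] L b ≠ 0 := (map_ne_zero_iff _ (inj_frac L)).2 hb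
      rw [eq_div_of_mul_eq hb' h]
      exact div_mem (hpoly a) (hpoly b)
    have hs : s ∈ Algebra.adjoin K {θ} := by
      rw [← IntermediateField.adjoin_simple_toSubalgebra_of_isAlgebraic hint.isAlgebraic, htop]
      trivial
    rw [Algebra.adjoin_singleton_eq_range_aeval] at hs
    obtain ⟨g, rfl⟩ := hs
    have hg : aeval θ g = aeval θ (g %ₘ F) := by
      conv_lhs => rw [← modByMonic_add_div g F]
      rw [map_add, map_mul, hFθ, zero_mul, add_zero]
    have hdeg : (g %ₘ F).natDegree < 3 := by
      have := natDegree_modByMonic_lt g hFm (fun h => by rw [h, natDegree_one] at hFd; omega)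
      omega
    refine ⟨(g %ₘ F).coeff 0, (g %ₘ F).coeff 1, (g %ₘ F).coeff 2, ?_⟩
    show aeval θ g = _
    rw [hg]
    conv_lhs => rw [(g %ₘ F).as_sum_range' 3 hdeg]
    rw [Finset.sum_range_succ, Finset.sum_range_succ, Finset.sum_range_one]
    simp only [map_add, aeval_monomial, pow_zero, pow_one, mul_one]
  · -- independence
    intro a b c habc
    obtain ⟨a1, a2, ha2, ha⟩ := exists_frac (k := k) K a
    obtain ⟨b1, b2, hb2, hb⟩ := exists_frac (k := k) K b
    obtain ⟨c1, c2, hc2, hcc⟩ := exists_frac (k := k) K c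
    have h0 : algebraMap k[X] L ((a1 * (b2 * c2)).comp f + (b1 * (a2 * c2)).comp f * X +
        (c1 * (a2 * b2)).comp f * X ^ 2) = 0 := by
      simp only [map_add, map_mul, map_pow]
      rw [← hc, ← hc, ← hc]
      simp only [map_mul]
      rw [← ha, ← hb, ← hcc]
      simp only [map_mul]
      linear_combination (algebraMap K L (algebraMap k[X] K a2) *
        algebraMap K L (algebraMap k[X] K b2) * algebraMap K L (algebraMap k[X] K c2)) * habc
    have h1 : (a1 * (b2 * c2)).comp f + (b1 * (a2 * c2)).comp f * X +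
        (c1 * (a2 * b2)).comp f * X ^ 2 = 0 := by
      apply inj_frac L
      rw [h0, map_zero]
    obtain ⟨h2, h3, h4⟩ := comp_sum_zero hd h1
    have e : ∀ z : k[X], z ≠ 0 → algebraMap k[X] K z ≠ 0 := fun z hz =>
      (map_ne_zero_iff _ (inj_frac K)).2 hz
    have ha1 : a1 = 0 := (mul_eq_zero.1 h2).resolve_right (mul_ne_zero hb2 hc2)
    have hb1 : b1 = 0 := (mul_eq_zero.1 h3).resolve_right (mul_ne_zero ha2 hc2)
    have hc1 : c1 = 0 := (mul_eq_zero.1 h4).resolve_right (mul_ne_zero ha2 hb2)
    rw [ha1, map_zero] at ha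
    rw [hb1, map_zero] at hb
    rw [hc1, map_zero] at hcc
    exact ⟨(mul_eq_zero.1 ha).resolve_right (e _ ha2), (mul_eq_zero.1 hb).resolve_right (e _ hb2),
      (mul_eq_zero.1 hcc).resolve_right (e _ hc2)⟩

end cover

end Pool.Agent.X261.TW
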