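import Pool.Agent.X261.TW.Grp

/-!
Two-descent on the curves `u P(t) y ^ 2 = f(x) - t` with `P = f(c) - t`: the points.
-/

set_option autoImplicit false

open Polynomial WeierstrassCurve WeierstrassCurve.Affine
open scoped Classical

namespace Pool.Agent.X261.TW

section cov

/-- A copy of the field of rational functions. -/
def Cov (k : Type) [Field k] : Type := FractionRing k[X]

variable {k : Type} [Field k]

noncomputable instance : Field (Cov k) := inferInstanceAs (Field (FractionRing k[X]))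

noncomputable instance : Algebra k[X] (Cov k) := inferInstanceAs (Algebra k[X] (FractionRing k[X]))

instance : IsFractionRing k[X] (Cov k) :=
  inferInstanceAs (IsFractionRing k[X] (FractionRing k[X]))

theorem exists_cover (K : Type) [Field K] [Algebra k[X] K] [IsFractionRing k[X] K] {f : k[X]}
    (hd : f.natDegree = 3) : ∃ _ : Algebra K (Cov k), IsCover K (Cov k) f := by
  have hinj : Function.Injective ((algebraMap k[X] (Cov k)).comp (compRingHom f)) := by
    rw [injective_iff_map_eq_zero]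
    intro Z hZ
    have h1 : Z.comp f = 0 := by
      apply inj_frac (Cov k)
      rw [map_zero]
      exact hZ
    rw [comp_eq_zero_iff] at h1
    rcases h1 with h1 | h1
    · exact h1
    · rw [h1.2, natDegree_C] at hd
      omega
  refine ⟨(IsFractionRing.lift (K := K) hinj).toAlgebra, fun g => ?_⟩
  exact IsFractionRing.lift_algebraMap hinj g

end cov

section points

variable {k K L : Type} [Field k] [Field K] [Field L] [Algebra k[X] K] [IsFractionRing k[X] K]
  [Algebra k[X] L] [IsFractionRing k[X] L] [Algebra K L] {f c : k[X]}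

/-- The points over `K`. -/
abbrev Pts (W : WeierstrassCurve K) : Type := WeierstrassCurve.Affine.Point W

theorem evenOff_unit {p g : k[X]} {u : k} (hu : u ≠ 0) (h : EvenOff (C u * p) g) :
    EvenOff p g := by
  obtain ⟨n, E, H, ⟨E', h1⟩, h2⟩ := h
  refine ⟨n, E, H, ⟨C (u⁻¹ ^ n) * E', ?_⟩, h2⟩
  have h3 : p ^ n = C (u⁻¹ ^ n) * (C u * p) ^ n := by
    rw [mul_pow, ← C_pow, ← mul_assoc, ← C_mul, ← mul_pow, inv_mul_cancel₀ hu, one_pow, C_1,
      one_mul]
  rw [h3, h1]
  ring

theorem class_cases (hc : IsCover K L f) (hm : f.Monic) (hd : f.natDegree = 3)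
    (hP : Irreducible (PP f c)) (hP2 : Irreducible (P2 f c)) {u : k} (hu : u ≠ 0) {x y : K}
    (he : y ^ 2 = x ^ 3 + (curve K f (C u * PP f c)).a₂ * x ^ 2 +
      (curve K f (C u * PP f c)).a₄ * x + (curve K f (C u * PP f c)).a₆) :
    ∃ s : L, algebraMap K L x - algebraMap K L (algebraMap k[X] K (C u * PP f c)) *
        algebraMap k[X] L X = s ^ 2 ∨
      algebraMap K L x - algebraMap K L (algebraMap k[X] K (C u * PP f c)) *
        algebraMap k[X] L X = algebraMap k[X] L (P2 f c) * s ^ 2 := by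
  have hD : C u * PP f c ≠ 0 := mul_ne_zero (C_ne_zero.2 hu) hP.ne_zero
  obtain ⟨g, H, hg, hH, hev, hgH, r, hr⟩ := point_class hc hm hd hD he
  rw [mul_comp, C_comp, P1_mul_P2 hm hd] at hev
  obtain ⟨H1, hH1, h1⟩ := group hc hm hd hP hP2 hg (evenOff_unit hu hev) hr
  have hHL : algebraMap k[X] L H ≠ 0 := (map_ne_zero_iff _ (inj_frac L)).2 hH
  refine ⟨algebraMap k[X] L H1 / algebraMap k[X] L H, ?_⟩
  have h2 := eq_div_of_mul_eq (pow_ne_zero 2 hHL) hgH
  rcases h1 with h1 | h1
  · left
    rw [h2, h1, map_pow, div_pow]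
  · right
    rw [h2, h1, map_mul, map_pow, div_pow, mul_div_assoc]

theorem two_dvd_or (hc : IsCover K L f) (hm : f.Monic) (hd : f.natDegree = 3) (h2 : (2 : k) ≠ 0)
    (hP : Irreducible (PP f c)) (hP2 : Irreducible (P2 f c)) {u : k} (hu : u ≠ 0)
    (S T : Pts (curve K f (C u * PP f c))) (hS : ¬ ∃ R, R + R = S) (hT : ¬ ∃ R, R + R = T) :
    ∃ R, R + R = S + T := by
  have hD : C u * PP f c ≠ 0 := mul_ne_zero (C_ne_zero.2 hu) hP.ne_zero
  have hsh := isShort (K := K) (L := L) hc hm hd h2 hD
  have hne : algebraMap k[X] L (P2 f c) ≠ 0 := (map_ne_zero_iff _ (inj_frac L)).2 hP2.ne_zero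
  rcases S with _ | ⟨x₁, y₁, h₁⟩
  · exact absurd ⟨0, add_zero 0⟩ hS
  rcases T with _ | ⟨x₂, y₂, h₂⟩
  · exact absurd ⟨0, add_zero 0⟩ hT
  obtain ⟨s₁, e₁⟩ := class_cases (L := L) hc hm hd hP hP2 hu (hsh.nonsingular.1 h₁)
  obtain ⟨s₂, e₂⟩ := class_cases (L := L) hc hm hd hP hP2 hu (hsh.nonsingular.1 h₂)
  rcases e₁ with e₁ | e₁
  · exact absurd (hsh.halve h₁ e₁) hS
  rcases e₂ with e₂ | e₂
  · exact absurd (hsh.halve h₂ e₂) hT
  rcases h : (Point.some x₁ y₁ h₁ + Point.some x₂ y₂ h₂ : Pts (curve K f (C u * PP f c))) with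
    _ | ⟨x₃, y₃, h₃⟩
  · exact ⟨0, add_zero 0⟩
  · obtain ⟨s, hs⟩ := hsh.hom h
    rw [e₁, e₂] at hs
    have hz : ∀ (x y : K), (curve K f (C u * PP f c)).toAffine.Nonsingular x y →
        algebraMap K L x - algebraMap K L (algebraMap k[X] K (C u * PP f c)) *
          algebraMap k[X] L X ≠ 0 := by
      intro x y hxy h0
      have hi := hsh.indep x (-1) 0 (by
        have hg := (isGen hc hm hd).indep x (-(algebraMap k[X] K (C u * PP f c))) 0 (by
          rw [map_neg, map_zero]
          linear_combination h0)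
        exact absurd (neg_eq_zero.1 hg.2.1) ((map_ne_zero_iff _ (inj_frac K)).2 hD))
      exact one_ne_zero (neg_eq_zero.1 hi.2.1)
    have hs1 : s₁ ≠ 0 := by
      rintro rfl
      exact hz _ _ h₁ (by rw [e₁]; ring)
    have hs2 : s₂ ≠ 0 := by
      rintro rfl
      exact hz _ _ h₂ (by rw [e₂]; ring)
    refine hsh.halve h₃ (s := s / (algebraMap k[X] L (P2 f c) * s₁ * s₂)) ?_
    rw [div_pow, ← hs]
    field_simp

/-- the point `(c, 1)` on `P y ^ 2 = f(x) - t` -/
theorem point_eq (hm : f.Monic) (hd : f.natDegree = 3) :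
    (algebraMap k[X] K (PP f c) ^ 2) ^ 2 = (algebraMap k[X] K (PP f c) * algebraMap k[X] K c) ^ 3 +
      (curve K f (PP f c)).a₂ * (algebraMap k[X] K (PP f c) * algebraMap k[X] K c) ^ 2 +
      (curve K f (PP f c)).a₄ * (algebraMap k[X] K (PP f c) * algebraMap k[X] K c) +
      (curve K f (PP f c)).a₆ := by
  change _ = _ + algebraMap k[X] K (C (f.coeff 2)) * algebraMap k[X] K (PP f c) * _ +
    algebraMap k[X] K (C (f.coeff 1)) * algebraMap k[X] K (PP f c) ^ 2 * _ +
    algebraMap k[X] K (C (f.coeff 0) - X) * algebraMap k[X] K (PP f c) ^ 3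
  have h1 : algebraMap k[X] K (PP f c) = algebraMap k[X] K c ^ 3 +
      algebraMap k[X] K (C (f.coeff 2)) * algebraMap k[X] K c ^ 2 +
      algebraMap k[X] K (C (f.coeff 1)) * algebraMap k[X] K c +
      algebraMap k[X] K (C (f.coeff 0) - X) := by
    have h2 : PP f c = c ^ 3 + C (f.coeff 2) * c ^ 2 + C (f.coeff 1) * c +
        (C (f.coeff 0) - X) := by
      unfold PP
      rw [comp_cubic hm hd c]
      ring
    conv_lhs => rw [h2]
    simp only [map_add, map_mul, map_pow]
  linear_combination (algebraMap k[X] K (PP f c)) ^ 3 * h1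

theorem point_not_two (hc : IsCover K L f) (hm : f.Monic) (hd : f.natDegree = 3)
    (h2 : (2 : k) ≠ 0) (hP : Irreducible (PP f c)) (hP2 : Irreducible (P2 f c))
    (hns : (curve K f (PP f c)).toAffine.Nonsingular
      (algebraMap k[X] K (PP f c) * algebraMap k[X] K c) (algebraMap k[X] K (PP f c) ^ 2))
    (R : Pts (curve K f (PP f c))) : R + R ≠ Point.some _ _ hns := by
  intro hR
  have hsh := isShort (K := K) (L := L) hc hm hd h2 hP.ne_zero
  rcases R with _ | ⟨x, y, hxy⟩
  · exact Point.some_ne_zero _ ((hR.symm.trans (add_zero 0)))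
  · obtain ⟨s, hs⟩ := hsh.hom hR
    have e : algebraMap K L (algebraMap k[X] K (PP f c) * algebraMap k[X] K c) -
        algebraMap K L (algebraMap k[X] K (PP f c)) * algebraMap k[X] L X =
        algebraMap k[X] L (P2 f c) * algebraMap k[X] L (P1 f c) ^ 2 := by
      rw [map_mul, hc, hc, P1_mul_P2 hm hd]
      unfold P1
      simp only [map_mul, map_sub]
      ring
    rw [e] at hs
    have hP1 := irr_P1 (c := c) hm hd hP
    have hz : algebraMap K L x - algebraMap K L (algebraMap k[X] K (PP f c)) *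
        algebraMap k[X] L X ≠ 0 := by
      intro h0
      have hg := (isGen hc hm hd).indep x (-(algebraMap k[X] K (PP f c))) 0 (by
        rw [map_neg, map_zero]
        linear_combination h0)
      exact absurd (neg_eq_zero.1 hg.2.1) ((map_ne_zero_iff _ (inj_frac K)).2 hP.ne_zero)
    obtain ⟨a, b, hb, hab⟩ := sq_desc (F := L) (Z := P2 f c)
      (m := (algebraMap K L x - algebraMap K L (algebraMap k[X] K (PP f c)) *
        algebraMap k[X] L X) * algebraMap k[X] L (P1 f c)) (r := s)
      (mul_ne_zero hz ((map_ne_zero_iff _ (inj_frac L)).2 hP1.ne_zero)) (by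
        rw [← hs]
        ring)
    exact irr_not_sq hP2 hb one_ne_zero (by rw [C_1, one_mul]; exact hab)

end points

section abs

variable {A : Type} [AddCommGroup A]

/-- an element which is not divisible by two in a group without elements of order two has infinite
order -/
theorem infinite_order (h2 : ∀ a : A, a + a = 0 → a = 0) {q : A} (hq : ∀ r : A, r + r ≠ q)
    {n : ℤ} (hn : n • q = 0) : n = 0 := by
  by_contra h0
  wlog hpos : 0 < n generalizing n with H
  · refine H (n := -n) (by rw [neg_smul, hn, neg_zero]) (by omega) (by omega)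
  obtain ⟨m, rfl⟩ : ∃ m : ℕ, n = m := ⟨n.toNat, by omega⟩
  have hm : m • q = 0 := by exact_mod_cast hn
  clear hn h0
  have hm0 : 0 < m := by exact_mod_cast hpos
  clear hpos
  induction m using Nat.strong_induction_on with
  | _ m ih =>
    rcases Nat.even_or_odd' m with ⟨l, rfl | rfl⟩
    · refine ih l (by omega) (h2 _ ?_) (by omega)
      rw [← add_smul, ← two_mul]
      exact hm
    · apply hq (-(l • q))
      have h3 : (2 * l) • q + q = 0 := by rw [← hm, add_smul, one_smul]
      have h4 : l • q + l • q = (2 * l) • q := by rw [two_mul, add_smul]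
      rw [← neg_add, h4]
      exact (eq_neg_of_add_eq_zero_right h3).symm

end abs

end Pool.Agent.X261.TW
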