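import Mathlib

/-!
Two-descent on `y ^ 2 = x ^ 3 + a₂ x ^ 2 + a₄ x + a₆` with the irreducible cubic: the algebra.
-/

set_option autoImplicit false

open WeierstrassCurve WeierstrassCurve.Affine Polynomial
open scoped Classical

namespace Pool.Agent.X261.TW

/-- The curve `y ^ 2 = x ^ 3 + a₂ x ^ 2 + a₄ x + a₆` over `K`, and a root `θ` of the cubic which
generates the cubic extension `L` of `K`. -/
structure IsShort {K L : Type} [Field K] [Field L] [Algebra K L] (W : Affine K) (θ : L) :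
    Prop where
  a1 : W.a₁ = 0
  a3 : W.a₃ = 0
  two : (2 : K) ≠ 0
  root : θ ^ 3 + algebraMap K L W.a₂ * θ ^ 2 + algebraMap K L W.a₄ * θ + algebraMap K L W.a₆ = 0
  noRoot : ∀ x : K, x ^ 3 + W.a₂ * x ^ 2 + W.a₄ * x + W.a₆ ≠ 0
  span : ∀ s : L, ∃ a b c : K,
    s = algebraMap K L a + algebraMap K L b * θ + algebraMap K L c * θ ^ 2
  indep : ∀ a b c : K, algebraMap K L a + algebraMap K L b * θ + algebraMap K L c * θ ^ 2 = 0 →
    a = 0 ∧ b = 0 ∧ c = 0

section

variable {K L : Type} [Field K] [Field L] [Algebra K L] {W : Affine K} {θ : L}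

theorem IsShort.equation (h : IsShort W θ) {x y : K} :
    W.Equation x y ↔ y ^ 2 = x ^ 3 + W.a₂ * x ^ 2 + W.a₄ * x + W.a₆ := by
  rw [W.equation_iff, h.a1, h.a3]
  constructor <;> intro h' <;> linear_combination h'

theorem IsShort.y_ne (h : IsShort W θ) {x y : K} (he : W.Equation x y) : y ≠ 0 := by
  rintro rfl
  apply h.noRoot x
  rw [← h.equation.1 he]
  ring

theorem IsShort.nonsingular (h : IsShort W θ) {x y : K} :
    W.Nonsingular x y ↔ y ^ 2 = x ^ 3 + W.a₂ * x ^ 2 + W.a₄ * x + W.a₆ := by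
  rw [W.nonsingular_iff, ← h.equation]
  refine ⟨fun h' => h'.1, fun h' => ⟨h', Or.inr ?_⟩⟩
  rw [h.a1, h.a3]
  intro hd
  have : (2 : K) * y = 0 := by linear_combination hd
  rcases mul_eq_zero.1 this with h2 | h2
  · exact h.two h2
  · exact h.y_ne h' h2

theorem IsShort.negY (h : IsShort W θ) (x y : K) : W.negY x y = -y := by
  simp [WeierstrassCurve.Affine.negY, h.a1, h.a3]

theorem IsShort.ne_negY (h : IsShort W θ) {x y : K} (he : W.Equation x y) : y ≠ W.negY x y := by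
  rw [h.negY]
  intro h1
  have : (2 : K) * y = 0 := by linear_combination h1
  rcases mul_eq_zero.1 this with h2 | h2
  · exact h.two h2
  · exact h.y_ne he h2

/-- there is no point of order two -/
theorem IsShort.no_two (h : IsShort W θ) {P : W.Point} (hP : P + P = 0) : P = 0 := by
  rcases P with _ | ⟨x, y, hxy⟩
  · rfl
  · exfalso
    rw [Point.add_self_of_Y_ne (h.ne_negY hxy.1)] at hP
    exact Point.some_ne_zero _ hP

/-- the product of the values of the function `x - θ` at three collinear points is a square -/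
theorem IsShort.hom (h : IsShort W θ) {x₁ y₁ x₂ y₂ x₃ y₃ : K} {h₁ : W.Nonsingular x₁ y₁}
    {h₂ : W.Nonsingular x₂ y₂} {h₃ : W.Nonsingular x₃ y₃}
    (hadd : Point.some x₁ y₁ h₁ + Point.some x₂ y₂ h₂ = Point.some x₃ y₃ h₃) :
    ∃ s : L, (algebraMap K L x₁ - θ) * (algebraMap K L x₂ - θ) * (algebraMap K L x₃ - θ) =
      s ^ 2 := by
  have hxy : ¬ (x₁ = x₂ ∧ y₁ = W.negY x₂ y₂) := by
    rintro ⟨h5, h6⟩
    rw [Point.add_of_Y_eq h5 h6] at hadd
    exact Point.some_ne_zero _ hadd.symm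
  rw [Point.add_some hxy] at hadd
  have hx3 : W.addX x₁ x₂ (W.slope x₁ x₂ y₁ y₂) = x₃ := by
    exact (Point.some.inj hadd).1
  have hp := addPolynomial_slope h₁.1 h₂.1 hxy
  rw [hx3, addPolynomial_eq, neg_inj, Cubic.toPoly, h.a1, h.a3] at hp
  have h7 := congrArg (aeval θ) hp
  simp only [map_add, map_mul, map_sub, map_neg, map_pow, aeval_C, aeval_X, map_one, map_zero,
    map_ofNat] at h7
  set ℓ := algebraMap K L (W.slope x₁ x₂ y₁ y₂) with hℓ
  refine ⟨ℓ * (θ - algebraMap K L x₁) + algebraMap K L y₁, ?_⟩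
  linear_combination h7 - h.root

/-- halving -/
theorem IsShort.halve (h : IsShort W θ) {x₀ y₀ : K} (h₀ : W.Nonsingular x₀ y₀) {s : L}
    (hs : algebraMap K L x₀ - θ = s ^ 2) : ∃ R : W.Point, R + R = Point.some x₀ y₀ h₀ := by
  obtain ⟨a, b, c, habc⟩ := h.span s
  have hc : c ≠ 0 := by
    rintro rfl
    have h1 := h.indep (a ^ 2 - x₀) (2 * a * b + 1) (b ^ 2) (by
      simp only [map_add, map_mul, map_sub, map_pow, map_one, map_ofNat]
      rw [habc, map_zero] at hs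
      linear_combination -hs)
    have hb : b = 0 := pow_eq_zero_iff two_ne_zero |>.1 h1.2.2
    have h2 := h1.2.1
    rw [hb] at h2
    simp at h2
  set A2 := W.a₂ with hA2
  set A4 := W.a₄ with hA4
  set A6 := W.a₆ with hA6
  set ρ := (b - c * A2) / c with hρ
  have hcρ : c * ρ = b - c * A2 := by rw [hρ]; field_simp
  set ℓ1 := a - ρ * b - c * A4 with hℓ1
  set ℓ0 := -ρ * a - c * A6 with hℓ0
  have hroot := h.root
  have hl : (θ - algebraMap K L ρ) * s = algebraMap K L ℓ1 * θ + algebraMap K L ℓ0 := by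
    have e1 : algebraMap K L c * algebraMap K L ρ =
        algebraMap K L b - algebraMap K L c * algebraMap K L A2 := by
      rw [← map_mul, hcρ, map_sub, map_mul]
    rw [habc, hℓ1, hℓ0]
    simp only [map_sub, map_mul, map_neg]
    linear_combination algebraMap K L c * hroot - θ ^ 2 * e1
  have hu := h.indep (ρ ^ 2 * x₀ - ℓ0 ^ 2 + A6) (-ρ ^ 2 - 2 * ρ * x₀ - 2 * ℓ1 * ℓ0 + A4)
    (x₀ + 2 * ρ - ℓ1 ^ 2 + A2) (by
      simp only [map_add, map_mul, map_sub, map_neg, map_pow, map_ofNat]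
      have e2 : (θ - algebraMap K L ρ) ^ 2 * (algebraMap K L x₀ - θ) =
          (algebraMap K L ℓ1 * θ + algebraMap K L ℓ0) ^ 2 := by
        rw [hs, ← mul_pow, hl]
      linear_combination e2 + hroot)
  obtain ⟨u0, u1, u2⟩ := hu
  have hR : W.Nonsingular ρ (ℓ1 * ρ + ℓ0) := by
    rw [h.nonsingular]
    linear_combination (-ρ ^ 2) * u2 - ρ * u1 - u0
  have hyR := h.y_ne hR.1
  have hslope : W.slope ρ ρ (ℓ1 * ρ + ℓ0) (ℓ1 * ρ + ℓ0) = ℓ1 := by
    rw [slope_of_Y_ne rfl (h.ne_negY hR.1), h.negY, h.a1]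
    have h2 := h.two
    rw [div_eq_iff]
    · linear_combination (2 * ρ) * u2 + u1
    · intro h5
      have : (2 : K) * (ℓ1 * ρ + ℓ0) = 0 := by linear_combination h5
      rcases mul_eq_zero.1 this with h6 | h6
      · exact h2 h6
      · exact hyR h6
  have hX : W.addX ρ ρ ℓ1 = x₀ := by
    rw [addX, h.a1]
    linear_combination -u2
  have hY : W.addY ρ ρ (ℓ1 * ρ + ℓ0) ℓ1 = -(ℓ1 * x₀ + ℓ0) := by
    rw [addY, negAddY, hX, h.negY]
    ring
  have hns : W.Nonsingular x₀ (-(ℓ1 * x₀ + ℓ0)) := by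
    have h8 := nonsingular_add hR hR (fun hxy => h.ne_negY hR.1 hxy.2)
    rwa [hslope, hX, hY] at h8
  have hdbl : Point.some ρ (ℓ1 * ρ + ℓ0) hR + Point.some ρ (ℓ1 * ρ + ℓ0) hR =
      Point.some x₀ (-(ℓ1 * x₀ + ℓ0)) hns := by
    rw [Point.add_self_of_Y_ne (h.ne_negY hR.1)]
    simp only [hslope, hX, hY]
  have hsq : y₀ ^ 2 = (-(ℓ1 * x₀ + ℓ0)) ^ 2 := by
    rw [h.nonsingular.1 h₀, h.nonsingular.1 hns]
  rcases sq_eq_sq_iff_eq_or_eq_neg.1 hsq with h9 | h9
  · refine ⟨_, hdbl.trans ?_⟩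
    simp only [h9]
  · refine ⟨-Point.some ρ (ℓ1 * ρ + ℓ0) hR, ?_⟩
    rw [← neg_add, hdbl, Point.neg_some]
    simp only [h.negY, h9]

end

end Pool.Agent.X261.TW
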