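import Pool.Agent.X261.TW.Fld

/-!
Two-descent on the curves `u P(t) y ^ 2 = f(x) - t` with `P = f(c) - t`.
-/

set_option autoImplicit false

open Polynomial
open scoped Classical

namespace Pool.Agent.X261.TW

section poly

variable {k : Type} [Field k]

/-- `P = f(c) - t` -/
noncomputable def PP (f c : k[X]) : k[X] := f.comp c - X

/-- `p₁ = c(f(x)) - x` -/
noncomputable def P1 (f c : k[X]) : k[X] := c.comp f - X

/-- `p₂ = (f(u) - f(x)) / (u - x)`, `u = c(f(x))` -/
noncomputable def P2 (f c : k[X]) : k[X] :=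
  c.comp f ^ 2 + c.comp f * X + X ^ 2 + C (f.coeff 2) * (c.comp f + X) + C (f.coeff 1)

variable {f c : k[X]}

theorem comp_cubic (hm : f.Monic) (hd : f.natDegree = 3) (u : k[X]) : f.comp u =
    u ^ 3 + C (f.coeff 2) * u ^ 2 + C (f.coeff 1) * u + C (f.coeff 0) := by
  conv_lhs => rw [cubic_eq hm hd]
  simp only [add_comp, mul_comp, pow_comp, X_comp, C_comp]

theorem P1_mul_P2 (hm : f.Monic) (hd : f.natDegree = 3) :
    (PP f c).comp f = P1 f c * P2 f c := by
  unfold PP P1 P2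
  rw [sub_comp, X_comp, comp_assoc]
  have h := cubic_eq hm hd
  rw [comp_cubic hm hd (c.comp f)]
  linear_combination -h

theorem natDegree_PP (hm : f.Monic) (hd : f.natDegree = 3) :
    (P1 f c).natDegree = (PP f c).natDegree ∧ 0 < (PP f c).natDegree := by
  unfold P1 PP
  by_cases hc : c.natDegree = 0
  · obtain ⟨a, rfl⟩ := natDegree_eq_zero.1 hc
    rw [C_comp, comp_C, natDegree_sub, natDegree_X_sub_C, natDegree_sub, natDegree_X_sub_C]
    exact ⟨rfl, one_pos⟩
  · have h1 : (c.comp f).natDegree = c.natDegree * 3 := by rw [natDegree_comp, hd]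
    have h2 : (f.comp c).natDegree = c.natDegree * 3 := by rw [natDegree_comp, hd]; ring
    rw [natDegree_sub_eq_left_of_natDegree_lt (by rw [h1, natDegree_X]; omega),
      natDegree_sub_eq_left_of_natDegree_lt (by rw [h2, natDegree_X]; omega), h1, h2]
    omega

theorem deg_le_of_dvd {P Q : k[X]} (hP : Irreducible P) (hQ : Irreducible Q)
    (h : Q ∣ P.comp f) : P.natDegree ≤ Q.natDegree := by
  haveI := Fact.mk hQ
  set β : AdjoinRoot Q := AdjoinRoot.mk Q f with hβ
  have h1 : aeval β P = 0 := by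
    have h2 : aeval β P = AdjoinRoot.mk Q (P.comp f) := by
      rw [aeval_def, comp, hom_eval₂]
      rfl
    rw [h2, AdjoinRoot.mk_eq_zero]
    exact h
  have h3 := minpoly.eq_of_irreducible hP h1
  have hfin : FiniteDimensional k (AdjoinRoot Q) :=
    (AdjoinRoot.powerBasis hQ.ne_zero).finite
  have h4 : (minpoly k β).natDegree ≤ Module.finrank k (AdjoinRoot Q) :=
    minpoly.natDegree_le β
  rw [← h3, natDegree_mul_C (inv_ne_zero (leadingCoeff_ne_zero.2 hP.ne_zero)),
    (AdjoinRoot.powerBasis hQ.ne_zero).finrank, AdjoinRoot.powerBasis_dim] at h4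
  exact h4

theorem irr_P1 (hm : f.Monic) (hd : f.natDegree = 3) (hP : Irreducible (PP f c)) :
    Irreducible (P1 f c) := by
  obtain ⟨h1, h2⟩ := natDegree_PP (c := c) hm hd
  have hne : P1 f c ≠ 0 := by
    intro h
    rw [h, natDegree_zero] at h1
    omega
  have hnu : ¬ IsUnit (P1 f c) := by
    intro h
    have := natDegree_eq_zero_of_isUnit h
    omega
  obtain ⟨Q, hQ, hdvd⟩ := WfDvdMonoid.exists_irreducible_factor hnu hne
  have h3 := deg_le_of_dvd hP hQ (hdvd.trans (by rw [P1_mul_P2 hm hd]; exact dvd_mul_right _ _))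
  have h4 : Associated Q (P1 f c) := by
    obtain ⟨Z, hZ⟩ := hdvd
    have hZ0 : Z ≠ 0 := by
      rintro rfl
      rw [mul_zero] at hZ
      exact hne hZ
    have h5 : Z.natDegree = 0 := by
      have h6 := congrArg natDegree hZ
      rw [natDegree_mul hQ.ne_zero hZ0] at h6
      omega
    obtain ⟨z, rfl⟩ := natDegree_eq_zero.1 h5
    have hz : z ≠ 0 := fun h => hZ0 (by rw [h, C_0])
    exact ⟨(isUnit_C.2 (isUnit_iff_ne_zero.2 hz)).unit, hZ.symm⟩
  exact h4.irreducible hQ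

theorem rep {p1 p2 g : k[X]} (h1 : Irreducible p1) (h2 : Irreducible p2) (hg : g ≠ 0)
    (h : EvenOff (p1 * p2) g) : ∃ v : k, v ≠ 0 ∧ ∃ i j : ℕ, i < 2 ∧ j < 2 ∧
      ∃ H : k[X], H ≠ 0 ∧ g = C v * p1 ^ i * p2 ^ j * H ^ 2 := by
  obtain ⟨n, E, H, hE, hEH⟩ := h
  rw [mul_pow] at hE
  obtain ⟨E1, E2, hE1, hE2, rfl⟩ := exists_dvd_and_dvd_of_dvd_mul hE
  obtain ⟨a, -, ⟨u1, hu1⟩⟩ := (dvd_prime_pow h1.prime n).1 hE1
  obtain ⟨b, -, ⟨u2, hu2⟩⟩ := (dvd_prime_pow h2.prime n).1 hE2
  obtain ⟨v1, hv1, hv1'⟩ := isUnit_iff.1 (u1⁻¹).isUnit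
  obtain ⟨v2, hv2, hv2'⟩ := isUnit_iff.1 (u2⁻¹).isUnit
  have e1 : E1 = p1 ^ a * C v1 := by
    rw [hv1', ← hu1, mul_assoc, Units.mul_inv, mul_one]
  have e2 : E2 = p2 ^ b * C v2 := by
    rw [hv2', ← hu2, mul_assoc, Units.mul_inv, mul_one]
  have hH : H ≠ 0 := by
    rintro rfl
    rw [zero_pow two_ne_zero, mul_zero] at hEH
    exact hg hEH
  refine ⟨v1 * v2, mul_ne_zero hv1.ne_zero hv2.ne_zero, a % 2, b % 2, Nat.mod_lt _ two_pos,
    Nat.mod_lt _ two_pos, p1 ^ (a / 2) * p2 ^ (b / 2) * H,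
    mul_ne_zero (mul_ne_zero (pow_ne_zero _ h1.ne_zero) (pow_ne_zero _ h2.ne_zero)) hH, ?_⟩
  have ea : p1 ^ a = p1 ^ (a % 2) * (p1 ^ (a / 2)) ^ 2 := by
    rw [← pow_mul, ← pow_add]
    congr 1
    omega
  have eb : p2 ^ b = p2 ^ (b % 2) * (p2 ^ (b / 2)) ^ 2 := by
    rw [← pow_mul, ← pow_add]
    congr 1
    omega
  rw [hEH, e1, e2, ea, eb, C_mul]
  ring

/-- an irreducible polynomial times a square is not a square -/
theorem irr_not_sq {P a b : k[X]} (hP : Irreducible P) (hb : b ≠ 0) {v : k} (hv : v ≠ 0) :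
    C v * P * b ^ 2 ≠ a ^ 2 := by
  intro h
  have hCv : (C v : k[X]) ≠ 0 := C_ne_zero.2 hv
  have ha : a ≠ 0 := by
    rintro rfl
    rw [zero_pow two_ne_zero] at h
    exact mul_ne_zero (mul_ne_zero hCv hP.ne_zero) (pow_ne_zero 2 hb) h
  have h1 := congrArg (multiplicity P) h
  have h2 : ¬ P ∣ C v := fun h3 => hP.not_isUnit
    (isUnit_of_dvd_unit h3 (isUnit_C.2 (isUnit_iff_ne_zero.2 hv)))
  have h4 : multiplicity P P = 1 := by
    have h5 : ¬ P ^ 2 ∣ P := by
      intro h6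
      have h7 := natDegree_le_of_dvd h6 hP.ne_zero
      rw [natDegree_pow] at h7
      have := hP.natDegree_pos
      omega
    exact multiplicity_eq_of_dvd_of_not_dvd (by rw [pow_one]) h5
  rw [mult_mul hP (mul_ne_zero hCv hP.ne_zero) (pow_ne_zero 2 hb), mult_mul hP hCv hP.ne_zero,
    mult_zero h2, mult_sq hP hb, mult_sq hP ha, h4] at h1
  omega

end poly

section fields

variable {k K L : Type} [Field k] [Field K] [Field L] [Algebra k[X] K] [IsFractionRing k[X] K]
  [Algebra k[X] L] [IsFractionRing k[X] L] [Algebra K L] {f c : k[X]}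

theorem sq_desc {F : Type} [Field F] [Algebra k[X] F] [IsFractionRing k[X] F] {Z : k[X]} {m r : F}
    (hm : m ≠ 0) (h : algebraMap k[X] F Z * m ^ 2 = r ^ 2) :
    ∃ a b : k[X], b ≠ 0 ∧ Z * b ^ 2 = a ^ 2 := by
  obtain ⟨a, b, hb, hab⟩ := exists_frac (k := k) F (r / m)
  refine ⟨a, b, hb, ?_⟩
  apply inj_frac F
  rw [map_mul, map_pow, map_pow, ← hab, mul_pow, div_pow, ← h]
  field_simp

theorem norm_P1 (hc : IsCover K L f) (hm : f.Monic) (hd : f.natDegree = 3) :
    Algebra.norm K (algebraMap k[X] L (P1 f c)) = algebraMap k[X] K (PP f c) := by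
  have hg := isGen hc hm hd
  have h1 : algebraMap k[X] L (P1 f c) = algebraMap K L (algebraMap k[X] K c) -
      algebraMap k[X] L X := by
    unfold P1
    rw [map_sub, hc]
  rw [h1, hg.norm_sub]
  have h2 : PP f c = c ^ 3 + C (f.coeff 2) * c ^ 2 + C (f.coeff 1) * c + (C (f.coeff 0) - X) := by
    unfold PP
    rw [comp_cubic hm hd c]
    ring
  rw [h2]
  simp only [map_add, map_mul, map_pow]

theorem norm_P2 (hc : IsCover K L f) (hm : f.Monic) (hd : f.natDegree = 3)
    (hP : Irreducible (PP f c)) :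
    Algebra.norm K (algebraMap k[X] L (P2 f c)) = algebraMap k[X] K (PP f c) ^ 2 := by
  have hg := isGen hc hm hd
  have h1 : algebraMap k[X] K (PP f c) ≠ 0 := (map_ne_zero_iff _ (inj_frac K)).2 hP.ne_zero
  have h2 := hg.norm_map (algebraMap k[X] K (PP f c))
  rw [hc, P1_mul_P2 hm hd, map_mul, map_mul, norm_P1 hc hm hd] at h2
  apply mul_left_cancel₀ h1
  rw [h2]
  ring

/-- the classes in `L^* / L^{*2}` of square norm, even away from `P(f)` -/
theorem group (hc : IsCover K L f) (hm : f.Monic) (hd : f.natDegree = 3)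
    (hP : Irreducible (PP f c)) (hP2 : Irreducible (P2 f c)) {g : k[X]} (hg0 : g ≠ 0)
    (hg : EvenOff (P1 f c * P2 f c) g) {r : K} (hr : Algebra.norm K (algebraMap k[X] L g) = r ^ 2) :
    ∃ H : k[X], H ≠ 0 ∧ (g = H ^ 2 ∨ g = P2 f c * H ^ 2) := by
  have hgen := isGen hc hm hd
  have hP1 := irr_P1 (c := c) hm hd hP
  obtain ⟨v, hv, i, j, hi, hj, H, hH, rfl⟩ := rep hP1 hP2 hg0 hg
  have hκ : ∀ z : k[X], z ≠ 0 → algebraMap k[X] K z ≠ 0 := fun z hz =>
    (map_ne_zero_iff _ (inj_frac K)).2 hz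
  have hCv : algebraMap k[X] L (C v) = algebraMap K L (algebraMap k[X] K (C v)) := by
    rw [hc, C_comp]
  have hfin : FiniteDimensional K L := Module.Basis.finiteDimensional_of_finite (bas hgen)
  have hNH : Algebra.norm K (algebraMap k[X] L H) ≠ 0 :=
    Algebra.norm_ne_zero_iff.2 ((map_ne_zero_iff _ (inj_frac L)).2 hH)
  rw [map_mul, map_mul, map_mul, map_pow, map_pow, map_pow, map_mul, map_mul, map_mul, map_pow,
    map_pow, map_pow, hCv, hgen.norm_map, norm_P1 hc hm hd, norm_P2 hc hm hd hP] at hr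
  have h1 : algebraMap k[X] K (C (v ^ 3) * PP f c ^ i) *
      (algebraMap k[X] K (PP f c) ^ j * Algebra.norm K (algebraMap k[X] L H)) ^ 2 = r ^ 2 := by
    rw [← hr, C_pow, map_mul, map_pow, map_pow]
    ring
  obtain ⟨a, b, hb, hab⟩ := sq_desc (mul_ne_zero (pow_ne_zero j (hκ _ hP.ne_zero)) hNH) h1
  have hi0 : i = 0 := by
    by_contra hne
    have : i = 1 := by omega
    subst this
    rw [pow_one] at hab
    exact irr_not_sq hP hb (pow_ne_zero 3 hv) hab
  subst hi0
  rw [pow_zero, mul_one] at hab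
  have h3 := congrArg leadingCoeff hab
  rw [leadingCoeff_mul, leadingCoeff_C, leadingCoeff_pow, leadingCoeff_pow] at h3
  have hlb : b.leadingCoeff ≠ 0 := leadingCoeff_ne_zero.2 hb
  set w := a.leadingCoeff / (v * b.leadingCoeff) with hw
  have hvw : v = w ^ 2 := by
    rw [hw, div_pow, ← h3]
    field_simp
  have hw0 : w ≠ 0 := by
    intro h0
    rw [h0, zero_pow two_ne_zero] at hvw
    exact hv hvw
  refine ⟨C w * H, mul_ne_zero (C_ne_zero.2 hw0) hH, ?_⟩
  have hj' : j = 0 ∨ j = 1 := by omega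
  rcases hj' with rfl | rfl
  · left
    rw [hvw, C_pow]
    ring
  · right
    rw [hvw, C_pow]
    ring

/-- The curve `Y ^ 2 = X ^ 3 + f₂ D X ^ 2 + f₁ D ^ 2 X + (f₀ - t) D ^ 3`, a Weierstrass equation of
`D(t) y ^ 2 = f(x) - t`. -/
noncomputable def curve (K : Type) [Field K] [Algebra k[X] K] (f D : k[X]) : WeierstrassCurve K :=
  ⟨0, algebraMap k[X] K (C (f.coeff 2)) * algebraMap k[X] K D, 0,
    algebraMap k[X] K (C (f.coeff 1)) * algebraMap k[X] K D ^ 2,
    algebraMap k[X] K (C (f.coeff 0) - X) * algebraMap k[X] K D ^ 3⟩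

theorem isShort (hc : IsCover K L f) (hm : f.Monic) (hd : f.natDegree = 3) (h2 : (2 : k) ≠ 0)
    {D : k[X]} (hD : D ≠ 0) : IsShort (curve K f D)
      (algebraMap K L (algebraMap k[X] K D) * algebraMap k[X] L X) := by
  have h2K : (2 : K) ≠ 0 := by
    have h3 : algebraMap k[X] K (C 2) ≠ 0 := (map_ne_zero_iff _ (inj_frac K)).2 (C_ne_zero.2 h2)
    rwa [show (C (2 : k) : k[X]) = 2 from map_ofNat C 2, map_ofNat] at h3
  exact (isGen hc hm hd).short h2K ((map_ne_zero_iff _ (inj_frac K)).2 hD) rfl rfl rfl rfl rfl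

/-- the class of the function `x - D θ` at a point of the curve -/
theorem point_class (hc : IsCover K L f) (hm : f.Monic) (hd : f.natDegree = 3) {D : k[X]}
    (hD : D ≠ 0) {x y : K}
    (he : y ^ 2 = x ^ 3 + (curve K f D).a₂ * x ^ 2 + (curve K f D).a₄ * x + (curve K f D).a₆) :
    ∃ g H : k[X], g ≠ 0 ∧ H ≠ 0 ∧ EvenOff (D.comp f) g ∧
      (algebraMap K L x - algebraMap K L (algebraMap k[X] K D) * algebraMap k[X] L X) *
        algebraMap k[X] L H ^ 2 = algebraMap k[X] L g ∧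
      ∃ r : K, Algebra.norm K (algebraMap k[X] L g) = r ^ 2 := by
  have hgen := isGen hc hm hd
  set d := algebraMap k[X] K D with hdd
  have hd0 : d ≠ 0 := (map_ne_zero_iff _ (inj_frac K)).2 hD
  change y ^ 2 = x ^ 3 + algebraMap k[X] K (C (f.coeff 2)) * d * x ^ 2 +
    algebraMap k[X] K (C (f.coeff 1)) * d ^ 2 * x +
    algebraMap k[X] K (C (f.coeff 0) - X) * d ^ 3 at he
  obtain ⟨A, B0, hrel, hAB⟩ := IsFractionRing.exists_reduced_fraction (A := k[X]) (x / d)
  set B : k[X] := B0.1 with hBdef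
  have hB : B ≠ 0 := nonZeroDivisors.ne_zero B0.2
  have hcop : IsCoprime A B := hrel.isCoprime
  have hBK : algebraMap k[X] K B ≠ 0 := (map_ne_zero_iff _ (inj_frac K)).2 hB
  have hx : x = d * (algebraMap k[X] K A / algebraMap k[X] K B) := by
    have h1 : algebraMap k[X] K A / algebraMap k[X] K B = x / d := by
      rw [← hAB, IsFractionRing.mk'_eq_div]
    rw [h1]
    field_simp
  set x' := algebraMap k[X] K A / algebraMap k[X] K B with hx'
  have hxA : x' * algebraMap k[X] K B = algebraMap k[X] K A := by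
    rw [hx']
    field_simp
  set c2 := algebraMap k[X] K (C (f.coeff 2)) with hc2
  set c1 := algebraMap k[X] K (C (f.coeff 1)) with hc1
  set c0 := algebraMap k[X] K (C (f.coeff 0) - X) with hc0
  have hval : algebraMap k[X] K (hom f A B) =
      algebraMap k[X] K B ^ 3 * (x' ^ 3 + c2 * x' ^ 2 + c1 * x' + c0) := by
    unfold hom
    simp only [map_add, map_mul, map_pow]
    rw [← hxA]
    ring
  have hnr := hgen.noRoot x'
  have hhom : hom f A B ≠ 0 := by
    intro h0
    rw [h0, map_zero] at hval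
    exact mul_ne_zero (pow_ne_zero 3 hBK) hnr hval.symm
  have hy1 : d * (y / d ^ 2) ^ 2 = x' ^ 3 + c2 * x' ^ 2 + c1 * x' + c0 := by
    rw [hx] at he
    have h5 : d * (y / d ^ 2) ^ 2 = y ^ 2 / d ^ 3 := by
      field_simp
    rw [h5, he]
    field_simp
  have hy0 : y / d ^ 2 ≠ 0 := by
    intro h0
    rw [h0] at hy1
    apply hnr
    rw [← hy1]
    ring
  obtain ⟨r, s, hs, hrs⟩ := exists_frac (k := k) K (algebraMap k[X] K B ^ 2 * (y / d ^ 2))
  have hsK : algebraMap k[X] K s ≠ 0 := (map_ne_zero_iff _ (inj_frac K)).2 hs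
  have hr : r ≠ 0 := by
    rintro rfl
    rw [map_zero] at hrs
    exact mul_ne_zero (mul_ne_zero (pow_ne_zero 2 hBK) hy0) hsK hrs
  have heq : B * hom f A B * s ^ 2 = D * r ^ 2 := by
    apply inj_frac K
    simp only [map_mul, map_pow]
    rw [← hrs, hval, ← hy1]
    ring
  have hev := evenOff_total hm hd hcop hB hhom hD hr hs heq
  have hfp : ∀ Z : k[X], Z ≠ 0 → Z.comp f ≠ 0 := by
    intro Z hZ h0
    rw [comp_eq_zero_iff] at h0
    rcases h0 with h0 | h0
    · exact hZ h0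
    · rw [h0.2, natDegree_C] at hd
      omega
  have hz0 : A.comp f - X * B.comp f ≠ 0 := by
    intro h0
    have h1 := hom_comp hm hd A B
    rw [h0, zero_mul] at h1
    exact hfp _ hhom h1
  have hBf := hfp B hB
  have hDf := hfp D hD
  have hBL : algebraMap k[X] L (B.comp f) ≠ 0 := (map_ne_zero_iff _ (inj_frac L)).2 hBf
  have key : (algebraMap K L x - algebraMap K L d * algebraMap k[X] L X) *
      algebraMap k[X] L (B.comp f) ^ 2 =
      algebraMap k[X] L (D.comp f * ((A.comp f - X * B.comp f) * B.comp f)) := by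
    rw [hx, map_mul]
    have h1 : algebraMap K L x' * algebraMap k[X] L (B.comp f) = algebraMap k[X] L (A.comp f) := by
      rw [← hc, ← map_mul, hxA, hc]
    rw [map_mul, map_mul, map_sub, map_mul, ← hc D, ← hdd, ← h1]
    ring
  refine ⟨D.comp f * ((A.comp f - X * B.comp f) * B.comp f), B.comp f,
    mul_ne_zero hDf (mul_ne_zero hz0 hBf), hBf,
    EvenOff.mul ⟨1, D.comp f, 1, by rw [pow_one], by ring⟩ hev, key,
    y * Algebra.norm K (algebraMap k[X] L (B.comp f)), ?_⟩
  rw [← key, map_mul, map_pow, mul_pow]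
  congr 1
  have h1 : algebraMap K L x - algebraMap K L d * algebraMap k[X] L X =
      algebraMap K L d * (algebraMap K L x' - algebraMap k[X] L X) := by
    rw [hx, map_mul]
    ring
  rw [h1, map_mul, hgen.norm_map, hgen.norm_sub, ← hy1]
  field_simp

end fields

end Pool.Agent.X261.TW
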