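import Pool.Agent.X261.TW.Main
import Pool.Agent.TH943.HJ.Fin
import Pool.Agent.X261.SE.Fin

/-!
The bound for the order of vanishing, and extensions of the constants.
-/

set_option autoImplicit false

open Polynomial

namespace Pool.Agent.X261.TW

open Pool.Agent.TH943.HJ Pool.Agent.W343.BSD

section order

variable {k : Type} [Field k]

theorem natDegree_P2 {f c : k[X]} (hm : f.Monic) (hd : f.natDegree = 3)
    (hP : Irreducible (PP f c)) : (P2 f c).natDegree = 2 * (PP f c).natDegree := by
  have h1 := natDegree_PP (c := c) hm hd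
  have h2 := congrArg natDegree (P1_mul_P2 (c := c) hm hd)
  have h3 : (P1 f c) ≠ 0 := (irr_P1 hm hd hP).ne_zero
  have h4 : (PP f c).comp f ≠ 0 := by
    intro h0
    rw [comp_eq_zero_iff] at h0
    rcases h0 with h0 | h0
    · exact hP.ne_zero h0
    · rw [h0.2, natDegree_C] at hd
      omega
  have h5 : P2 f c ≠ 0 := by
    intro h0
    rw [P1_mul_P2 hm hd, h0, mul_zero] at h4
    exact h4 rfl
  rw [natDegree_comp, hd, natDegree_mul h3 h5] at h2
  omega

theorem order_le [Finite k] {f c : k[X]} (h2 : (2 : k) ≠ 0) (hm : f.Monic)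
    (hd : f.natDegree = 3) (hP : Irreducible (PP f c)) (hP2 : Irreducible (P2 f c)) {u : k}
    (hu : u ≠ 0) (m : ℕ) (G : ℤ[X])
    (hG : LF f (C u * PP f c) =
      (((1 - C (Nat.card k : ℤ) * X) ^ m * G : ℤ[X]) : PowerSeries ℤ)) :
    m ≤ 2 * twoPart (PP f c).natDegree := by
  classical
  have hP1 := irr_P1 (c := c) hm hd hP
  have hdeg := natDegree_PP (c := c) hm hd
  have hdeg2 := natDegree_P2 hm hd hP
  set P := PP f c with hPdef
  have hCu : (C u : k[X]) ≠ 0 := C_ne_zero.2 hu
  have hD : C u * P ≠ 0 := mul_ne_zero hCu hP.ne_zero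
  have h1 := upper h2 (by omega) hD m G hG
  obtain ⟨Q, δ, hδ, hQ⟩ := exists_MI_eq hP
  have hdvd : ∀ {δ : k} {R S : k[X]}, δ ≠ 0 → R ∣ C δ * S → R ∣ S := by
    intro δ R S hδ h
    have hu1 : IsUnit (C δ : k[X]) := isUnit_C.2 (isUnit_iff_ne_zero.2 hδ)
    rwa [hu1.dvd_mul_left] at h
  have hprimes : primes (C u * P) = {Q.1} := by
    ext R
    rw [mem_primes hD, Finset.mem_singleton]
    constructor
    · rintro ⟨hR1, hR2, hR3⟩
      have h3 : R ∣ Q.1 := by
        rcases hR2.prime.dvd_or_dvd hR3 with h4 | h4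
        · exact absurd (isUnit_of_dvd_unit h4 (isUnit_C.2 (isUnit_iff_ne_zero.2 hu))) hR2.not_isUnit
        · rw [hQ] at h4
          exact (hdvd hδ h4)
      exact eq_of_monic_of_associated hR1 Q.2.1 (hR2.associated_of_dvd Q.2.2 h3)
    · rintro rfl
      refine ⟨Q.2.1, Q.2.2, ?_⟩
      rw [hQ]
      exact (dvd_mul_left _ _).mul_left _
  rw [hprimes, Finset.sum_singleton, Finset.sum_singleton] at h1
  have hQd : Q.1.natDegree = P.natDegree := by
    rw [hQ, natDegree_C_mul hδ]
  have hQf : P1 f c * P2 f c = C δ * Q.1.comp f := by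
    rw [← P1_mul_P2 hm hd, ← hPdef, hQ, mul_comp, C_comp]
  obtain ⟨R1, δ1, hδ1, hR1⟩ := exists_MI_eq hP1
  obtain ⟨R2, δ2, hδ2, hR2⟩ := exists_MI_eq hP2
  have hsub : primes (Q.1.comp f) ⊆ {R1.1, R2.1} := by
    intro R hR
    have hne : Q.1.comp f ≠ 0 := by
      intro h0
      rw [h0, mul_zero] at hQf
      exact mul_ne_zero hP1.ne_zero hP2.ne_zero hQf
    obtain ⟨h3, h4, h5⟩ := (mem_primes hne R).1 hR
    have h6 : R ∣ P1 f c * P2 f c := by
      rw [hQf]
      exact h5.mul_left _
    rw [Finset.mem_insert, Finset.mem_singleton]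
    rcases h4.prime.dvd_or_dvd h6 with h7 | h7
    · left
      refine eq_of_monic_of_associated h3 R1.2.1 (h4.associated_of_dvd R1.2.2 ?_)
      rw [hR1] at h7
      exact hdvd hδ1 h7
    · right
      refine eq_of_monic_of_associated h3 R2.2.1 (h4.associated_of_dvd R2.2.2 ?_)
      rw [hR2] at h7
      exact hdvd hδ2 h7
  have h3 : ∑ R ∈ primes (Q.1.comp f), twoPart R.natDegree ≤
      ∑ R ∈ ({R1.1, R2.1} : Finset k[X]), twoPart R.natDegree :=
    Finset.sum_le_sum_of_subset hsub
  have h4 : ∑ R ∈ ({R1.1, R2.1} : Finset k[X]), twoPart R.natDegree ≤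
      twoPart R1.1.natDegree + twoPart R2.1.natDegree := by
    by_cases h : R1.1 = R2.1
    · rw [h]
      simp
    · rw [Finset.sum_pair h]
  have e1 : R1.1.natDegree = P.natDegree := by rw [← hdeg.1, hR1, natDegree_C_mul hδ1]
  have e2 : R2.1.natDegree = 2 * P.natDegree := by rw [← hdeg2, hR2, natDegree_C_mul hδ2]
  rw [e1, e2, twoPart_mul two_pos hdeg.2] at h4
  have e3 : twoPart 2 = 2 := by
    unfold twoPart
    rw [padicValNat_self, pow_one]
  rw [e3] at h4
  rw [hQd] at h1
  omega

end order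

section base

variable {k k' : Type} [Field k] [Finite k] [Field k'] [Finite k'] [Algebra k k']

theorem irr_ext {P : k[X]} (hP : Irreducible P)
    (hr : (Module.finrank k k').Coprime P.natDegree) : Irreducible (P.map (algebraMap k k')) := by
  have h := Pool.Agent.X261.SE.irr_map (k := k) (k' := k') (f := P) (P := X) hP.natDegree_pos
    irreducible_X (by rw [X_comp]; exact hP) hr (P' := X) irreducible_X (by rw [map_X])
  rwa [X_comp] at h

theorem PP_map (f c : k[X]) : (PP f c).map (algebraMap k k') =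
    PP (f.map (algebraMap k k')) (c.map (algebraMap k k')) := by
  unfold PP
  rw [Polynomial.map_sub, map_comp, map_X]

theorem P2_map (f c : k[X]) : (P2 f c).map (algebraMap k k') =
    P2 (f.map (algebraMap k k')) (c.map (algebraMap k k')) := by
  unfold P2
  simp only [Polynomial.map_add, Polynomial.map_mul, Polynomial.map_pow, map_comp, map_X, map_C,
    coeff_map]

end base

end Pool.Agent.X261.TW
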